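import Mathlib

/-!
# Large deviations from exponential moments (Cramér, Gärtner, Ellis)
-/

set_option autoImplicit false
set_option linter.unusedSectionVars false
set_option maxHeartbeats 400000

open Filter Topology

namespace Pool.Agent.W5h26.LD

section
variable {ι : Type} {l : Filter ι} {Ω : ι → Type} (S : ∀ i, Finset (Ω i)) (Z : ∀ i, Ω i → ℝ)
  (L : ι → ℝ)

/-- the average of a function -/
noncomputable def avg {Ω : Type} (S : Finset Ω) (φ : Ω → ℝ) : ℝ := (∑ x ∈ S, φ x) / (S.card : ℝ)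

theorem avg_mono {Ω : Type} {S : Finset Ω} {φ ψ : Ω → ℝ} (h : ∀ x ∈ S, φ x ≤ ψ x) :
    avg S φ ≤ avg S ψ :=
  div_le_div_of_nonneg_right (Finset.sum_le_sum h) (Nat.cast_nonneg _)

theorem avg_add {Ω : Type} {S : Finset Ω} (φ ψ : Ω → ℝ) :
    avg S (fun x => φ x + ψ x) = avg S φ + avg S ψ := by
  unfold avg
  rw [Finset.sum_add_distrib, add_div]

theorem avg_mul {Ω : Type} {S : Finset Ω} (φ : Ω → ℝ) (c : ℝ) :
    avg S (fun x => φ x * c) = avg S φ * c := by
  unfold avg
  rw [← Finset.sum_mul, div_mul_eq_mul_div]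

theorem avg_pos {Ω : Type} {S : Finset Ω} (hS : S.Nonempty) {φ : Ω → ℝ} (h : ∀ x, 0 < φ x) :
    0 < avg S φ :=
  div_pos (Finset.sum_pos (fun x _ => h x) hS) (by exact_mod_cast Finset.card_pos.2 hS)

open Classical in
/-- the proportion -/
noncomputable def pr {Ω : Type} (S : Finset Ω) (P : Ω → Prop) : ℝ := ((S.filter P).card : ℝ) / (S.card : ℝ)

open Classical in
theorem pr_eq {Ω : Type} (S : Finset Ω) (P : Ω → Prop) :
    pr S P = avg S fun x => if P x then 1 else 0 := by
  unfold pr avg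
  rw [Finset.sum_boole]

theorem pr_nonneg {Ω : Type} (S : Finset Ω) (P : Ω → Prop) : 0 ≤ pr S P := by
  unfold pr
  positivity

/-- the exponential moments -/
noncomputable def em (i : ι) (t : ℝ) : ℝ := avg (S i) fun x => Real.exp (t * Z i x)

variable {S Z L}

/-- the exponential moments are those of a Gaussian variable, on the exponential scale -/
def Gauss (l : Filter ι) (S : ∀ i, Finset (Ω i)) (Z : ∀ i, Ω i → ℝ) (L : ι → ℝ) (m : ℝ) : Prop :=
  ∀ t : ℝ, Tendsto (fun i => Real.log (em S Z i t) / L i) l (𝓝 (t * m + t ^ 2 / 2))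

theorem em_pos (hS : ∀ i, (S i).Nonempty) (i : ι) (t : ℝ) : 0 < em S Z i t :=
  avg_pos (hS i) fun _ => Real.exp_pos _

/-- the main inequality for the lower bound -/
theorem em_split (i : ι) {κ ε R : ℝ} (hκ : 0 ≤ κ) (hε : 0 < ε) (_hL : 0 < L i) :
    em S Z i κ ≤ pr (S i) (fun x => R * L i ≤ Z i x) * Real.exp (κ * ((R + 3 * ε) * L i)) +
      em S Z i (κ + ε) * Real.exp (-(ε * ((R + 3 * ε) * L i))) +
      em S Z i (κ - ε) * Real.exp (ε * ((R + ε) * L i)) := by
  classical
  rw [pr_eq]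
  unfold em
  rw [← avg_mul, ← avg_mul, ← avg_mul, ← avg_add, ← avg_add]
  refine avg_mono fun x _ => ?_
  set z := Z i x with hz
  have h0 : 0 ≤ (if R * L i ≤ z then (1 : ℝ) else 0) * Real.exp (κ * ((R + 3 * ε) * L i)) := by
    split_ifs <;> positivity
  have h1 : 0 ≤ Real.exp ((κ + ε) * z) * Real.exp (-(ε * ((R + 3 * ε) * L i))) := by positivity
  have h2 : 0 ≤ Real.exp ((κ - ε) * z) * Real.exp (ε * ((R + ε) * L i)) := by positivity
  rcases lt_or_ge ((R + 3 * ε) * L i) z with h3 | h3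
  · have h4 : Real.exp (κ * z) ≤ Real.exp ((κ + ε) * z) * Real.exp (-(ε * ((R + 3 * ε) * L i))) := by
      rw [← Real.exp_add]
      refine Real.exp_le_exp.2 ?_
      nlinarith
    linarith
  rcases lt_or_ge z ((R + ε) * L i) with h4 | h4
  · have h5 : Real.exp (κ * z) ≤ Real.exp ((κ - ε) * z) * Real.exp (ε * ((R + ε) * L i)) := by
      rw [← Real.exp_add]
      refine Real.exp_le_exp.2 ?_
      nlinarith
    linarith
  · have h5 : R * L i ≤ z := by nlinarith
    have h6 : Real.exp (κ * z) ≤ Real.exp (κ * ((R + 3 * ε) * L i)) :=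
      Real.exp_le_exp.2 (mul_le_mul_of_nonneg_left h3 hκ)
    rw [if_pos h5, one_mul]
    linarith

/-- a term with a negative exponent is negligible -/
theorem small_term (hS : ∀ i, (S i).Nonempty) (hL : Tendsto L l atTop) {m : ℝ}
    (hG : Gauss l S Z L m) {κ κ' a : ℝ} (h : κ' * m + κ' ^ 2 / 2 + a < κ * m + κ ^ 2 / 2) :
    ∀ᶠ i in l, em S Z i κ' * Real.exp (a * L i) ≤ em S Z i κ / 4 := by
  obtain ⟨δ, hδ0, hδ⟩ : ∃ δ : ℝ, 0 < δ ∧ δ < κ * m + κ ^ 2 / 2 - (κ' * m + κ' ^ 2 / 2 + a) :=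
    exists_between (by linarith)
  have h1 := ((hG κ').add_const a).sub (hG κ)
  have h2 := h1.eventually (gt_mem_nhds (show κ' * m + κ' ^ 2 / 2 + a - (κ * m + κ ^ 2 / 2) < -δ by
    linarith))
  filter_upwards [h2, hL.eventually (eventually_ge_atTop (Real.log 4 / δ)),
    hL.eventually (eventually_gt_atTop 0)] with i h3 h4 h5
  have e1 := em_pos (Z := Z) hS i κ'
  have e2 := em_pos (Z := Z) hS i κ
  rw [div_le_iff₀ hδ0] at h4
  have h6 : Real.log (em S Z i κ') + a * L i + Real.log 4 ≤ Real.log (em S Z i κ) := by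
    have h7 : Real.log (em S Z i κ') / L i + a - Real.log (em S Z i κ) / L i =
        (Real.log (em S Z i κ') + a * L i - Real.log (em S Z i κ)) / L i := by
      field_simp
    rw [h7, div_lt_iff₀ h5] at h3
    nlinarith
  have h8 : em S Z i κ' * Real.exp (a * L i) * 4 ≤ em S Z i κ := by
    rw [← Real.log_le_log_iff (by positivity) e2, Real.log_mul (by positivity) (by norm_num),
      Real.log_mul e1.ne' (Real.exp_pos _).ne', Real.log_exp]
    exact h6
  linarith

/-- **The large deviation principle, upper tail.** -/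
theorem ldp_upper (hS : ∀ i, (S i).Nonempty) (hL : Tendsto L l atTop) {m : ℝ}
    (hG : Gauss l S Z L m) {R : ℝ} (hR : m < R) :
    Tendsto (fun i => Real.log (pr (S i) fun x => R * L i ≤ Z i x) / L i) l
      (𝓝 (-(R - m) ^ 2 / 2)) := by
  classical
  -- the lower bound
  have hlow : ∀ ε : ℝ, 0 < ε → ∀ᶠ i in l, 0 < pr (S i) (fun x => R * L i ≤ Z i x) ∧
      Real.log (em S Z i (R - m + 2 * ε)) - Real.log 2 - (R - m + 2 * ε) * ((R + 3 * ε) * L i) ≤
        Real.log (pr (S i) fun x => R * L i ≤ Z i x) := by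
    intro ε hε
    set κ : ℝ := R - m + 2 * ε with hκ
    have hκ0 : 0 < κ := by rw [hκ]; linarith
    have h1 := small_term (κ := κ) (κ' := κ + ε) (a := -(ε * (R + 3 * ε))) hS hL hG (by
      rw [hκ]
      nlinarith [sq_pos_of_pos hε])
    have h2 := small_term (κ := κ) (κ' := κ - ε) (a := ε * (R + ε)) hS hL hG (by
      rw [hκ]
      nlinarith [sq_pos_of_pos hε])
    filter_upwards [h1, h2, hL.eventually (eventually_gt_atTop 0)] with i h3 h4 h5
    have h6 := em_split (S := S) (Z := Z) (L := L) (R := R) i hκ0.le hε h5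
    have e2 := em_pos (Z := Z) hS i κ
    have h7 : em S Z i κ / 2 ≤ pr (S i) (fun x => R * L i ≤ Z i x) *
        Real.exp (κ * ((R + 3 * ε) * L i)) := by
      have e3 : -(ε * ((R + 3 * ε) * L i)) = -(ε * (R + 3 * ε)) * L i := by ring
      have e4 : ε * ((R + ε) * L i) = ε * (R + ε) * L i := by ring
      rw [e3, e4] at h6
      linarith
    have h8 : 0 < pr (S i) (fun x => R * L i ≤ Z i x) := by
      by_contra h9
      push Not at h9
      have h10 : pr (S i) (fun x => R * L i ≤ Z i x) * Real.exp (κ * ((R + 3 * ε) * L i)) ≤ 0 :=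
        mul_nonpos_of_nonpos_of_nonneg h9 (Real.exp_pos _).le
      linarith
    refine ⟨h8, ?_⟩
    have h9 := Real.log_le_log (by positivity) h7
    rw [Real.log_div e2.ne' (by norm_num), Real.log_mul h8.ne' (Real.exp_pos _).ne',
      Real.log_exp] at h9
    linarith
  -- the upper bound
  have hup : ∀ i, 0 < L i → 0 < pr (S i) (fun x => R * L i ≤ Z i x) →
      Real.log (pr (S i) fun x => R * L i ≤ Z i x) ≤
        Real.log (em S Z i (R - m)) - (R - m) * (R * L i) := by
    intro i hi hp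
    have h1 : pr (S i) (fun x => R * L i ≤ Z i x) * Real.exp ((R - m) * (R * L i)) ≤
        em S Z i (R - m) := by
      rw [pr_eq, ← avg_mul]
      refine avg_mono fun x _ => ?_
      split_ifs with h
      · rw [one_mul]
        exact Real.exp_le_exp.2 (mul_le_mul_of_nonneg_left h (by linarith))
      · rw [zero_mul]
        exact (Real.exp_pos _).le
    have h2 := Real.log_le_log (by positivity) h1
    rw [Real.log_mul hp.ne' (Real.exp_pos _).ne', Real.log_exp] at h2
    linarith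
  rw [tendsto_order]
  constructor
  · intro b hb
    have hc : Tendsto (fun ε : ℝ => (R - m + 2 * ε) * m + (R - m + 2 * ε) ^ 2 / 2 -
        (R - m + 2 * ε) * (R + 3 * ε)) (𝓝[>] 0) (𝓝 (-(R - m) ^ 2 / 2)) := by
      have h1 : Continuous fun ε : ℝ => (R - m + 2 * ε) * m + (R - m + 2 * ε) ^ 2 / 2 -
        (R - m + 2 * ε) * (R + 3 * ε) := by fun_prop
      have h2 := (h1.tendsto 0).mono_left (nhdsWithin_le_nhds (s := Set.Ioi 0))
      refine h2.trans (le_of_eq ?_)
      congr 1
      ring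
    obtain ⟨ε, hε1, hε⟩ := ((hc.eventually (lt_mem_nhds hb)).and self_mem_nhdsWithin).exists
    have hε0 : 0 < ε := hε
    have h1 : Tendsto (fun i => Real.log (em S Z i (R - m + 2 * ε)) / L i - Real.log 2 / L i -
        (R - m + 2 * ε) * (R + 3 * ε)) l (𝓝 ((R - m + 2 * ε) * m + (R - m + 2 * ε) ^ 2 / 2 - 0 -
        (R - m + 2 * ε) * (R + 3 * ε))) :=
      ((hG _).sub (tendsto_const_nhds.div_atTop hL)).sub_const _
    rw [sub_zero] at h1
    filter_upwards [h1.eventually (lt_mem_nhds hε1), hlow ε hε0,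
      hL.eventually (eventually_gt_atTop 0)] with i h2 h3 h4
    refine h2.trans_le ?_
    rw [le_div_iff₀ h4]
    refine le_trans (le_of_eq ?_) h3.2
    field_simp
  · intro b hb
    have h1 : Tendsto (fun i => Real.log (em S Z i (R - m)) / L i - (R - m) * R) l
        (𝓝 ((R - m) * m + (R - m) ^ 2 / 2 - (R - m) * R)) := (hG _).sub_const _
    have h5 : (R - m) * m + (R - m) ^ 2 / 2 - (R - m) * R = -(R - m) ^ 2 / 2 := by ring
    rw [h5] at h1
    filter_upwards [h1.eventually (gt_mem_nhds hb), hlow 1 one_pos,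
      hL.eventually (eventually_gt_atTop 0)] with i h2 h3 h4
    refine lt_of_le_of_lt ?_ h2
    rw [div_le_iff₀ h4]
    refine (hup i h4 h3.1).trans (le_of_eq ?_)
    field_simp

theorem Gauss.neg {m : ℝ} (hG : Gauss l S Z L m) : Gauss l S (fun i x => -Z i x) L (-m) := by
  intro t
  have h1 := hG (-t)
  have h2 : -t * m + (-t) ^ 2 / 2 = t * -m + t ^ 2 / 2 := by ring
  rw [h2] at h1
  refine h1.congr fun i => ?_
  unfold em
  simp only [neg_mul, mul_neg]

/-- **The large deviation principle, lower tail.** -/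
theorem ldp_lower (hS : ∀ i, (S i).Nonempty) (hL : Tendsto L l atTop) {m : ℝ}
    (hG : Gauss l S Z L m) {R : ℝ} (hR : R < m) :
    Tendsto (fun i => Real.log (pr (S i) fun x => Z i x ≤ R * L i) / L i) l
      (𝓝 (-(R - m) ^ 2 / 2)) := by
  have h1 := ldp_upper hS hL hG.neg (R := -R) (by linarith)
  have h2 : -(-R - -m) ^ 2 / 2 = -(R - m) ^ 2 / 2 := by ring
  rw [h2] at h1
  refine h1.congr fun i => ?_
  have h3 : ∀ x, (-R * L i ≤ -Z i x) ↔ Z i x ≤ R * L i := fun x => by
    rw [neg_mul, neg_le_neg_iff]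
  simp only [h3]

end

end Pool.Agent.W5h26.LD
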