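import Pool.Agent.W5h26.LD.Loc
import Pool.Agent.W5h26.LD.Dev

/-!
# The moments over boxes
-/

set_option autoImplicit false
set_option linter.unusedSectionVars false
set_option maxHeartbeats 400000

open Filter Topology Complex
open NumberField IsDedekindDomain Pool.Agent.H921R2.TatePole
open Pool.Agent.R409.RA (fieldQuot finiteQuot)

namespace Pool.Agent.W5h26.LD

open Pool.Agent.W5h26.EP Pool.Agent.W5h26.AO Pool.Agent.W5h26.CL

variable {K : Type} [Field K] [NumberField K] {n : ℕ}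

/-- the number of the primes -/
theorem card_px (K : Type) [Field K] [NumberField K] {X : ℝ} (hX : 0 ≤ X) :
    ((PX K X).card : ℝ) ≤ Module.finrank ℤ (𝓞 K) * X := by
  classical
  have h1 : (PX K X).card ≤ Module.finrank ℤ (𝓞 K) * ((PX K X).image fun v => nm v).card := by
    refine Finset.card_le_mul_card_image _ _ fun q _ => ?_
    exact card_norm _ q fun v hv => (Finset.mem_filter.1 hv).2
  have h2 : ((PX K X).image fun v => nm v) ⊆ Finset.Ioc 0 ⌊X⌋₊ := by
    intro q hq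
    obtain ⟨v, hv, rfl⟩ := Finset.mem_image.1 hq
    rw [mem_PX] at hv
    have := two_le_nm v
    exact Finset.mem_Ioc.2 ⟨by omega, Nat.le_floor hv⟩
  have h3 := Finset.card_le_card h2
  rw [Nat.card_Ioc, Nat.sub_zero] at h3
  have h4 : ((PX K X).card : ℝ) ≤ (Module.finrank ℤ (𝓞 K) : ℝ) * (⌊X⌋₊ : ℝ) := by
    exact_mod_cast h1.trans (Nat.mul_le_mul_left _ h3)
  exact h4.trans (mul_le_mul_of_nonneg_left (Nat.floor_le hX) (Nat.cast_nonneg _))

/-- the sum of the `q_v ^ (-1/2)` -/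
theorem half_px (K : Type) [Field K] [NumberField K] {η : ℝ} (hη : 0 < η) : ∃ C : ℝ, 0 ≤ C ∧
    ∀ X : ℝ, 0 ≤ X → ∑ v ∈ PX K X, (nm v : ℝ) ^ (-(1 / 2) : ℝ) ≤ η * X + C := by
  classical
  set d : ℝ := (Module.finrank ℤ (𝓞 K) : ℝ) with hd
  have hd0 : 0 ≤ d := Nat.cast_nonneg _
  obtain ⟨Y, hY1, hY⟩ : ∃ Y : ℝ, 1 ≤ Y ∧ Y ^ (-(1 / 2) : ℝ) * d ≤ η := by
    have h1 : Tendsto (fun Y : ℝ => Y ^ (-(1 / 2) : ℝ) * d) atTop (𝓝 (0 * d)) :=
      (tendsto_rpow_neg_atTop (by norm_num)).mul_const d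
    rw [zero_mul] at h1
    obtain ⟨Y, h2, h3⟩ := ((h1.eventually (gt_mem_nhds hη)).and (eventually_ge_atTop 1)).exists
    exact ⟨Y, h3, h2.le⟩
  have hY0 : 0 < Y := by linarith
  refine ⟨d * Y, by positivity, fun X hX => ?_⟩
  have h1 : ∀ v ∈ PX K X, (nm v : ℝ) ^ (-(1 / 2) : ℝ) ≤
      (if (nm v : ℝ) ≤ Y then 1 else 0) + Y ^ (-(1 / 2) : ℝ) := by
    intro v _
    have hp : 0 ≤ Y ^ (-(1 / 2) : ℝ) := by positivity
    split_ifs with h
    · linarith [half_le v]
    · push Not at h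
      rw [zero_add]
      exact Real.rpow_le_rpow_of_nonpos hY0 h.le (by norm_num)
  refine (Finset.sum_le_sum h1).trans ?_
  rw [Finset.sum_add_distrib, Finset.sum_boole, Finset.sum_const, nsmul_eq_mul]
  have h2 : (((PX K X).filter fun v => (nm v : ℝ) ≤ Y).card : ℝ) ≤ d * Y := by
    refine le_trans ?_ (card_px K hY0.le)
    have : (PX K X).filter (fun v => (nm v : ℝ) ≤ Y) ⊆ PX K Y := fun v hv => by
      rw [mem_PX]
      exact (Finset.mem_filter.1 hv).2
    exact_mod_cast Finset.card_le_card this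
  have h3 : ((PX K X).card : ℝ) * Y ^ (-(1 / 2) : ℝ) ≤ η * X := by
    have h4 := mul_le_mul_of_nonneg_right (card_px K hX) (show 0 ≤ Y ^ (-(1 / 2) : ℝ) by positivity)
    have h5 := mul_le_mul_of_nonneg_right hY hX
    linarith
  linarith

theorem prime_mem (v : HeightOneSpectrum (𝓞 K)) : ∃ p : ℕ, p.Prime ∧ p ≤ nm v ∧
    (p : 𝓞 K) ∈ v.asIdeal := by
  obtain ⟨p, k, hp, hk, h⟩ := prime_pow v
  have hp' : p.Prime := hp.nat_prime
  refine ⟨p, hp', ?_, ?_⟩
  · rw [← h]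
    exact Nat.le_self_pow hk.ne' p
  · have h2 : ((nm v : ℕ) : 𝓞 K) ∈ v.asIdeal := Ideal.absNorm_mem _
    rw [← h] at h2
    push_cast at h2
    exact v.isPrime.mem_of_pow_mem _ h2

/-- the product of the norms -/
theorem prod_px (K : Type) [Field K] [NumberField K] {X : ℝ} (hX : 0 ≤ X) :
    ((∏ v ∈ PX K X, nm v : ℕ) : ℝ) ≤
      Real.exp ((Real.log 4 * Module.finrank ℤ (𝓞 K)) * X) := by
  classical
  set P : ℕ := primorial ⌊X⌋₊ with hP
  have hP0 : P ≠ 0 := (primorial_pos _).ne'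
  have h1 : ∀ v ∈ PX K X, v.asIdeal ∣ Ideal.span {(P : 𝓞 K)} := by
    intro v hv
    rw [mem_PX] at hv
    rw [Ideal.dvd_span_singleton]
    obtain ⟨p, hp, hpn, hpv⟩ := prime_mem v
    have h2 : p ∣ P := by
      rw [hP]
      unfold primorial
      refine Finset.dvd_prod_of_mem _ ?_
      rw [Finset.mem_filter, Finset.mem_range]
      refine ⟨?_, hp⟩
      have : nm v ≤ ⌊X⌋₊ := Nat.le_floor hv
      omega
    exact Ideal.mem_of_dvd _ (by exact_mod_cast Nat.cast_dvd_cast h2) hpv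
  have h2 : ∏ v ∈ PX K X, v.asIdeal ∣ Ideal.span {(P : 𝓞 K)} := by
    refine Finset.prod_dvd_of_coprime (fun v _ w _ hvw => ?_) h1
    exact Ideal.isCoprime_iff_sup_eq.2 (v.isMaximal.coprime_of_ne w.isMaximal fun h =>
      hvw (HeightOneSpectrum.ext h))
  have h3 := map_dvd Ideal.absNorm h2
  rw [map_prod] at h3
  have h4 : Ideal.absNorm (Ideal.span {(P : 𝓞 K)}) = P ^ Module.finrank ℤ (𝓞 K) := by
    rw [Ideal.absNorm_span_singleton]
    have : (P : 𝓞 K) = algebraMap ℤ (𝓞 K) (P : ℤ) := by simp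
    rw [this, Algebra.norm_algebraMap, Int.natAbs_pow, Int.natAbs_natCast]
  rw [h4] at h3
  have h5 : ∏ v ∈ PX K X, nm v ≤ P ^ Module.finrank ℤ (𝓞 K) :=
    Nat.le_of_dvd (pow_pos (Nat.pos_of_ne_zero hP0) _) h3
  have h6 : P ≤ 4 ^ ⌊X⌋₊ := primorial_le_four_pow _
  have h7 : ((∏ v ∈ PX K X, nm v : ℕ) : ℝ) ≤ ((4 : ℝ) ^ ⌊X⌋₊) ^ Module.finrank ℤ (𝓞 K) := by
    exact_mod_cast h5.trans (Nat.pow_le_pow_left h6 _)
  refine h7.trans ?_
  rw [← Real.rpow_natCast (4 : ℝ), ← Real.rpow_natCast _ (Module.finrank ℤ (𝓞 K)),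
    ← Real.rpow_mul (by norm_num), Real.rpow_def_of_pos (by norm_num)]
  refine Real.exp_le_exp.2 ?_
  have h8 : (⌊X⌋₊ : ℝ) ≤ X := Nat.floor_le hX
  have h9 : 0 ≤ Real.log 4 * (Module.finrank ℤ (𝓞 K) : ℝ) :=
    mul_nonneg (Real.log_nonneg (by norm_num)) (Nat.cast_nonneg _)
  nlinarith

section
variable {φ : ∀ v : HeightOneSpectrum (𝓞 K), (Fin n → 𝓞 K ⧸ v.asIdeal) → ℝ} {B m C : ℝ}
  {κ : Type} [Fintype κ] [DecidableEq κ] {b : Module.Basis κ ℤ (𝓞 K)}

/-- the sum of the local variables -/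
noncomputable def ZX (φ : ∀ v : HeightOneSpectrum (𝓞 K), (Fin n → 𝓞 K ⧸ v.asIdeal) → ℝ) (X : ℝ)
    (h : Fin n → 𝓞 K) : ℝ := ∑ v ∈ PX K X, φ v (rho v n h)

/-- the average over the box and the average of the model -/
theorem box_near (H : Var φ B m C) (w : ℂ) {η : ℝ} (hη : 0 < η) : ∃ D : ℝ, 0 ≤ D ∧
    ∀ (X : ℝ) (N : ℕ), 0 ≤ X →
      ‖mean (bx b n N) (fun h => cexp (w * ZX φ X h)) - ∏ v ∈ PX K X, EV φ w v‖ ≤
        D * Real.exp ((Real.log 4 * Module.finrank ℤ (𝓞 K) + η) * X) / (2 * N + 1) := by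
  classical
  have hB := H.B0
  obtain ⟨C₁, hC₁, hhalf⟩ := half_px K (show 0 < η / (‖w‖ * B + 1) by positivity)
  refine ⟨2 * (Real.exp (‖w‖ * B * C₁) * (n * Fintype.card κ)), by positivity, fun X N hX => ?_⟩
  set T := PX K X with hT
  set ψ : ((v : T) → Fin n → 𝓞 K ⧸ v.1.asIdeal) → ℂ := fun q => cexp (w * ∑ v : T, φ v.1 (q v)) with hψ
  set Bd : ℝ := Real.exp (‖w‖ * B * C₁ + η * X) with hBd
  have hbd : ∀ q, ‖ψ q‖ ≤ Bd := by
    intro q
    rw [hψ]
    simp only
    rw [Complex.norm_exp]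
    refine Real.exp_le_exp.2 ((Complex.re_le_norm _).trans ?_)
    rw [norm_mul]
    have h1 : ‖((∑ v : T, φ v.1 (q v) : ℝ) : ℂ)‖ ≤ B * ∑ v ∈ T, (nm v : ℝ) ^ (-(1 / 2) : ℝ) := by
      rw [Complex.ofReal_sum]
      refine (norm_sum_le _ _).trans ?_
      rw [Finset.mul_sum, ← Finset.sum_coe_sort T]
      refine Finset.sum_le_sum fun v _ => ?_
      rw [Complex.norm_real, Real.norm_eq_abs]
      exact H.bd v.1 (q v)
    have h2 := hhalf X hX
    have h3 : ‖w‖ * (B * (η / (‖w‖ * B + 1) * X + C₁)) ≤ ‖w‖ * B * C₁ + η * X := by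
      have h4 : ‖w‖ * (B * (η / (‖w‖ * B + 1) * X + C₁)) =
          ‖w‖ * B * C₁ + (‖w‖ * B / (‖w‖ * B + 1)) * (η * X) := by
        field_simp
        ring
      rw [h4]
      have h5 : ‖w‖ * B / (‖w‖ * B + 1) ≤ 1 := by
        rw [div_le_one (by positivity)]
        linarith
      have h6 := mul_le_mul_of_nonneg_right h5 (show 0 ≤ η * X by positivity)
      linarith
    calc ‖w‖ * ‖((∑ v : T, φ v.1 (q v) : ℝ) : ℂ)‖ ≤ ‖w‖ * (B * ∑ v ∈ T, (nm v : ℝ) ^ (-(1 / 2) : ℝ)) :=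
          mul_le_mul_of_nonneg_left h1 (norm_nonneg w)
      _ ≤ ‖w‖ * (B * (η / (‖w‖ * B + 1) * X + C₁)) := by gcongr
      _ ≤ _ := h3
  have h1 := equi_T b T ψ hbd N
  have h2 : ∀ h : Fin n → 𝓞 K, ψ (rhoT T n h) = cexp (w * ZX φ X h) := by
    intro h
    rw [hψ]
    unfold ZX
    simp only
    congr 2
    push_cast
    exact Finset.sum_coe_sort T fun v => (φ v (rho v n h) : ℂ)
  have h3 : (∑ q, ψ q) / (Fintype.card ((v : T) → Fin n → 𝓞 K ⧸ v.1.asIdeal) : ℂ) =
      ∏ v ∈ T, EV φ w v := by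
    have e0 : ∀ q, ψ q = ∏ v : T, cexp (w * φ v.1 (q v)) := by
      intro q
      rw [hψ]
      simp only
      rw [← Complex.exp_sum, Complex.ofReal_sum, Finset.mul_sum]
    have e1 : ∑ q : (v : T) → Fin n → 𝓞 K ⧸ v.1.asIdeal, ψ q =
        ∏ v : T, ∑ h', cexp (w * φ v.1 h') := by
      simp only [e0]
      rw [Finset.prod_univ_sum, Fintype.piFinset_univ]
    rw [e1, Fintype.card_pi]
    push_cast
    rw [← Finset.prod_div_distrib, ← Finset.prod_coe_sort T fun v => EV φ w v]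
    refine Finset.prod_congr rfl fun v _ => ?_
    unfold EV
    rw [card_loc]
    push_cast
    rfl
  simp only [h2] at h1
  rw [h3] at h1
  refine h1.trans ?_
  have h4 := prod_px K hX
  have h5 : (0 : ℝ) < 2 * N + 1 := by positivity
  rw [← mul_div_assoc, div_le_div_iff_of_pos_right h5]
  have h6 : Real.exp ((Real.log 4 * Module.finrank ℤ (𝓞 K) + η) * X) * Real.exp (‖w‖ * B * C₁) =
      Bd * Real.exp ((Real.log 4 * Module.finrank ℤ (𝓞 K)) * X) := by
    rw [hBd, ← Real.exp_add, ← Real.exp_add]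
    congr 1
    ring
  calc 2 * Bd * (n * Fintype.card κ * ((∏ v ∈ T, nm v : ℕ) : ℝ)) ≤
      2 * Bd * (n * Fintype.card κ * Real.exp ((Real.log 4 * Module.finrank ℤ (𝓞 K)) * X)) := by
        gcongr
    _ = 2 * (n * Fintype.card κ) * (Bd * Real.exp ((Real.log 4 * Module.finrank ℤ (𝓞 K)) * X)) := by
        ring
    _ = _ := by
        rw [← h6]
        ring

/-- the admissible constant -/
noncomputable def c₀ (K : Type) [Field K] [NumberField K] : ℝ :=
  (2 * (Real.log 4 * Module.finrank ℤ (𝓞 K) + 1))⁻¹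

theorem c₀_pos : 0 < c₀ K := by
  have h1 : 0 ≤ Real.log 4 * (Module.finrank ℤ (𝓞 K) : ℝ) :=
    mul_nonneg (Real.log_nonneg (by norm_num)) (Nat.cast_nonneg _)
  unfold c₀
  positivity

/-- **The moments over the boxes.** -/
theorem box_moment (H : Var φ B m C) {M : ℝ}
    (hM : Tendsto (fun X : ℝ => MX K X - Real.log (Real.log X)) atTop (𝓝 M)) {X : ℕ → ℝ}
    (hX : Tendsto X atTop atTop) (hXN : ∀ᶠ N in atTop, X N ≤ c₀ K * Real.log N) (w : ℂ) :
    Tendsto (fun N => mean (bx b n N) (fun h => cexp (w * ZX φ (X N) h)) /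
      (Real.log (X N) : ℂ) ^ (ex m w)) atTop (𝓝 (Phi φ m M w)) := by
  obtain ⟨D, hD, hnear⟩ := box_near (b := b) H w one_pos
  have h1 := (model_moment H hM w).comp hX
  have h2 : Tendsto (fun N => (mean (bx b n N) (fun h => cexp (w * ZX φ (X N) h)) -
      ∏ v ∈ PX K (X N), EV φ w v) / (Real.log (X N) : ℂ) ^ (ex m w)) atTop (𝓝 0) := by
    rw [tendsto_zero_iff_norm_tendsto_zero]
    set A : ℝ := |(ex m w).re| with hA
    have h3 : Tendsto (fun N : ℕ => D * (Real.log N ^ A / (N : ℝ) ^ (1 / 2 : ℝ))) atTop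
        (𝓝 (D * 0)) :=
      ((((isLittleO_log_rpow_rpow_atTop A (show (0 : ℝ) < 1 / 2 by norm_num)).tendsto_div_nhds_zero).comp
        tendsto_natCast_atTop_atTop)).const_mul D
    rw [mul_zero] at h3
    have hc0 := c₀_pos (K := K)
    have hd : 0 ≤ Real.log 4 * (Module.finrank ℤ (𝓞 K) : ℝ) :=
      mul_nonneg (Real.log_nonneg (by norm_num)) (Nat.cast_nonneg _)
    refine squeeze_zero' (Eventually.of_forall fun _ => norm_nonneg _) ?_ h3
    filter_upwards [hXN, hX.eventually (eventually_ge_atTop 0), eventually_ge_atTop 1,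
      (Real.tendsto_log_atTop.comp hX).eventually (eventually_ge_atTop 1)] with N h4 h5 h6 h7
    have h7' : 1 ≤ Real.log (X N) := h7
    have hN : (1 : ℝ) ≤ N := by exact_mod_cast h6
    have hN0 : (0 : ℝ) < N := by linarith
    have hlN : 0 ≤ Real.log N := Real.log_nonneg hN
    have e1 : Real.exp ((Real.log 4 * Module.finrank ℤ (𝓞 K) + 1) * X N) ≤ (N : ℝ) ^ (1 / 2 : ℝ) := by
      rw [Real.rpow_def_of_pos hN0]
      refine Real.exp_le_exp.2 ?_
      have h8 : (Real.log 4 * Module.finrank ℤ (𝓞 K) + 1) * X N ≤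
          (Real.log 4 * Module.finrank ℤ (𝓞 K) + 1) * (c₀ K * Real.log N) :=
        mul_le_mul_of_nonneg_left h4 (by positivity)
      refine h8.trans (le_of_eq ?_)
      unfold c₀
      field_simp
    have e2 : X N ≤ N := by
      have h8 : c₀ K ≤ 1 := by
        unfold c₀
        refine inv_le_one_of_one_le₀ ?_
        linarith
      have h9 := Real.log_le_sub_one_of_pos hN0
      nlinarith
    have e3 : Real.log (X N) ≤ Real.log N := by
      have h8 : 0 < X N := by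
        by_contra h9
        have h10 : X N = 0 := le_antisymm (not_lt.1 h9) h5
        rw [h10, Real.log_zero] at h7'
        linarith
      exact Real.log_le_log h8 e2
    have e4 : ‖(Real.log (X N) : ℂ) ^ (ex m w)‖⁻¹ ≤ Real.log N ^ A := by
      rw [Complex.norm_cpow_eq_rpow_re_of_pos (by linarith), ← Real.rpow_neg (by linarith)]
      calc Real.log (X N) ^ (-(ex m w).re) ≤ Real.log (X N) ^ A :=
            Real.rpow_le_rpow_of_exponent_le h7' (neg_le_abs _)
        _ ≤ _ := Real.rpow_le_rpow (by linarith) e3 (abs_nonneg _)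
    rw [norm_div, div_eq_mul_inv]
    have h8 := hnear (X N) N h5
    have h9 : D * Real.exp ((Real.log 4 * Module.finrank ℤ (𝓞 K) + 1) * X N) / (2 * N + 1) ≤
        D / (N : ℝ) ^ (1 / 2 : ℝ) := by
      have hNh : 0 < (N : ℝ) ^ (1 / 2 : ℝ) := by positivity
      rw [div_le_div_iff₀ (by positivity) hNh]
      have h10 : (N : ℝ) ^ (1 / 2 : ℝ) * (N : ℝ) ^ (1 / 2 : ℝ) = N := by
        rw [← Real.rpow_add hN0]
        norm_num
      calc D * Real.exp ((Real.log 4 * Module.finrank ℤ (𝓞 K) + 1) * X N) * (N : ℝ) ^ (1 / 2 : ℝ) ≤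
          D * (N : ℝ) ^ (1 / 2 : ℝ) * (N : ℝ) ^ (1 / 2 : ℝ) := by gcongr
        _ = D * N := by rw [mul_assoc, h10]
        _ ≤ D * (2 * N + 1) := mul_le_mul_of_nonneg_left (by linarith) hD
    calc _ ≤ D / (N : ℝ) ^ (1 / 2 : ℝ) * Real.log N ^ A :=
          mul_le_mul (h8.trans h9) e4 (by positivity) (by positivity)
      _ = _ := by ring
  have h3 := h1.add h2
  rw [add_zero] at h3
  refine h3.congr fun N => ?_
  simp only [Function.comp_apply]
  rw [← add_div]
  congr 1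
  ring

theorem mean_avg (t : ℝ) (X : ℝ) (N : ℕ) :
    mean (bx b n N) (fun h => cexp ((t : ℂ) * ZX φ X h)) =
      ((em (fun N => bx b n N) (fun _ h => ZX φ X h) N t : ℝ) : ℂ) := by
  unfold mean em avg
  push_cast
  rfl

/-- the exponential moments on the logarithmic scale -/
theorem box_gauss (H : Var φ B m C) {M : ℝ}
    (hM : Tendsto (fun X : ℝ => MX K X - Real.log (Real.log X)) atTop (𝓝 M)) {X : ℕ → ℝ}
    (hX : Tendsto X atTop atTop) (hXN : ∀ᶠ N in atTop, X N ≤ c₀ K * Real.log N) :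
    Gauss atTop (fun N => bx b n N) (fun N h => ZX φ (X N) h)
      (fun N => Real.log (Real.log (X N))) m := by
  intro t
  obtain ⟨x, hx, hPhi⟩ := phi_pos H M t
  have h1 := box_moment (b := b) H hM hX hXN t
  rw [hPhi] at h1
  have hL : Tendsto (fun N => Real.log (Real.log (X N))) atTop atTop :=
    Real.tendsto_log_atTop.comp (Real.tendsto_log_atTop.comp hX)
  have h2 : Tendsto (fun N => Real.log (em (fun N => bx b n N) (fun N h => ZX φ (X N) h) N t /
      Real.log (X N) ^ (t * m + t ^ 2 / 2))) atTop (𝓝 (Real.log x)) := by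
    have h3 := ((Complex.continuous_re.tendsto _).comp h1)
    rw [Complex.ofReal_re] at h3
    refine Tendsto.log (h3.congr' ?_) hx.ne'
    filter_upwards [(Real.tendsto_log_atTop.comp hX).eventually (eventually_gt_atTop 0)] with N hN
    have hN' : 0 < Real.log (X N) := hN
    simp only [Function.comp_apply]
    rw [mean_avg, ex_real, ← Complex.ofReal_cpow hN'.le, ← Complex.ofReal_div, Complex.ofReal_re]
    rfl
  have h3 : Tendsto (fun N => Real.log (em (fun N => bx b n N) (fun N h => ZX φ (X N) h) N t /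
      Real.log (X N) ^ (t * m + t ^ 2 / 2)) / Real.log (Real.log (X N)) + (t * m + t ^ 2 / 2)) atTop
      (𝓝 (0 + (t * m + t ^ 2 / 2))) := (h2.div_atTop hL).add_const _
  rw [zero_add] at h3
  refine h3.congr' ?_
  filter_upwards [(Real.tendsto_log_atTop.comp hX).eventually (eventually_gt_atTop 0),
    hL.eventually (eventually_gt_atTop 0)] with N hN hN2
  have hN' : 0 < Real.log (X N) := hN
  have h4 := em_pos (S := fun N => bx b n N) (Z := fun N h => ZX φ (X N) h)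
    (fun N => bx_nonempty b n N) N t
  rw [Real.log_div h4.ne' (by positivity), Real.log_rpow hN']
  field_simp
  ring

end

end Pool.Agent.W5h26.LD
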