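import Pool.Agent.W5h26.LD.Box
import Pool.Agent.W5h26.CL.Fin

/-!
# The local variables of the curves
-/

set_option autoImplicit false
set_option linter.unusedSectionVars false
set_option maxHeartbeats 400000

open Filter Topology Finset Complex Polynomial
open NumberField IsDedekindDomain Pool.Agent.H921R2.TatePole

namespace Pool.Agent.W5h26.LD

open Pool.Agent.W5h26.EP Pool.Agent.W5h26.AO Pool.Agent.W5h26.CL

variable {K : Type} [Field K] [NumberField K] {r n g : ℕ}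

theorem av_add' (v : HeightOneSpectrum (𝓞 K)) (f h : (Fin n → 𝓞 K ⧸ v.asIdeal) → ℝ) :
    av v (fun q => f q + h q) = av v f + av v h := by
  unfold av
  rw [Finset.sum_add_distrib, add_div]

theorem av_smul' (v : HeightOneSpectrum (𝓞 K)) (c : ℝ) (f : (Fin n → 𝓞 K ⧸ v.asIdeal) → ℝ) :
    av v (fun q => c * f q) = c * av v f := by
  unfold av
  rw [← Finset.mul_sum, mul_div_assoc]

theorem av_abs' (v : HeightOneSpectrum (𝓞 K)) {f g : (Fin n → 𝓞 K ⧸ v.asIdeal) → ℝ}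
    (h : ∀ q, |f q| ≤ g q) : |av v f| ≤ av v g := by
  unfold av
  have := nm_pos v
  rw [abs_div, abs_of_pos (show (0 : ℝ) < (nm v : ℝ) ^ n by positivity)]
  refine div_le_div_of_nonneg_right ?_ (by positivity)
  exact (Finset.abs_sum_le_sum_abs _ _).trans (Finset.sum_le_sum fun q _ => h q)

theorem av_const' (v : HeightOneSpectrum (𝓞 K)) (c : ℝ) :
    av v (fun _ : Fin n → 𝓞 K ⧸ v.asIdeal => c) = c := by
  unfold av
  have := nm_pos v
  rw [Finset.sum_const, card_univ, card_loc, nsmul_eq_mul]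
  push_cast
  field_simp

/-- a local variable from traces -/
theorem var_of {τ e : ∀ v : HeightOneSpectrum (𝓞 K), (Fin n → 𝓞 K ⧸ v.asIdeal) → ℝ}
    {T ρ μ C E : ℝ} (hT : 0 ≤ T) (hC : 0 ≤ C) (hE : 0 ≤ E)
    (h1 : ∀ v q, |τ v q| ≤ T * √(nm v : ℝ)) (h2 : ∀ v, |av v (τ v) + ρ| ≤ C * (nm v : ℝ) ^ (-(1 / 2) : ℝ))
    (h3 : ∀ v, |av v (fun q => τ v q ^ 2) - nm v| ≤ C) (h4 : ∀ v q, |e v q| ≤ E / nm v)
    (h5 : ∀ v, |av v (e v) - μ / nm v| ≤ E * (nm v : ℝ) ^ (-(3 / 2) : ℝ)) :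
    Var (fun v q => -τ v q / nm v + e v q) (T + E) (ρ + μ) (C + E + 2 * T * E + E ^ 2) := by
  have hsq : ∀ v : HeightOneSpectrum (𝓞 K), √(nm v : ℝ) / nm v = (nm v : ℝ) ^ (-(1 / 2) : ℝ) := by
    intro v
    have hq := nm_pos v
    rw [Real.sqrt_eq_rpow, div_eq_mul_inv, ← Real.rpow_neg_one, ← Real.rpow_add hq]
    norm_num
  refine ⟨by positivity, by positivity, fun v q => ?_, fun v => ?_, fun v => ?_⟩
  · have hq := nm_pos v
    refine (abs_add_le _ _).trans ?_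
    rw [add_mul]
    refine add_le_add ?_ ?_
    · rw [abs_div, abs_neg, abs_of_pos hq, ← hsq, ← mul_div_assoc]
      exact div_le_div_of_nonneg_right (h1 v q) hq.le
    · refine (h4 v q).trans ?_
      rw [div_eq_mul_inv]
      refine mul_le_mul_of_nonneg_left ?_ hE
      rw [← Real.rpow_neg_one]
      exact Real.rpow_le_rpow_of_exponent_le (nm1 v) (by norm_num)
  · have hq := nm_pos v
    have e1 : av v (fun q => -τ v q / nm v + e v q) - (ρ + μ) / nm v =
        -((av v (τ v) + ρ) / nm v) + (av v (e v) - μ / nm v) := by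
      rw [av_add']
      have : av v (fun q => -τ v q / nm v) = -(nm v : ℝ)⁻¹ * av v (τ v) := by
        rw [← av_smul']
        congr 1
        funext q
        field_simp
      rw [this]
      field_simp
      ring
    rw [e1]
    refine (abs_add_le _ _).trans ?_
    have e2 : |-((av v (τ v) + ρ) / nm v)| ≤ C * (nm v : ℝ) ^ (-(3 / 2) : ℝ) := by
      rw [abs_neg, abs_div, abs_of_pos hq, ← rp_mul, ← mul_div_assoc]
      exact div_le_div_of_nonneg_right (h2 v) hq.le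
    have e3 : (0 : ℝ) ≤ (nm v : ℝ) ^ (-(3 / 2) : ℝ) := by positivity
    have e4 := mul_nonneg (show 0 ≤ 2 * T * E + E ^ 2 by positivity) e3
    calc _ ≤ C * (nm v : ℝ) ^ (-(3 / 2) : ℝ) + E * (nm v : ℝ) ^ (-(3 / 2) : ℝ) :=
          add_le_add e2 (h5 v)
      _ ≤ _ := by linarith
  · have hq := nm_pos v
    have hs : 0 ≤ √(nm v : ℝ) := Real.sqrt_nonneg _
    have e0 : ∀ q, (-τ v q / nm v + e v q) ^ 2 =
        ((nm v : ℝ) ^ 2)⁻¹ * τ v q ^ 2 + (-2 * τ v q / nm v * e v q + e v q ^ 2) := by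
      intro q
      field_simp
      ring
    simp only [e0]
    rw [av_add', av_smul']
    have e1 : |av v (fun q => -2 * τ v q / nm v * e v q + e v q ^ 2)| ≤
        (2 * T * E + E ^ 2) * (nm v : ℝ) ^ (-(3 / 2) : ℝ) := by
      refine (av_abs' v (g := fun _ => (2 * T * E + E ^ 2) * (nm v : ℝ) ^ (-(3 / 2) : ℝ))
        fun q => ?_).trans (le_of_eq (av_const' v _))
      refine (abs_add_le _ _).trans ?_
      rw [add_mul]
      refine add_le_add ?_ ?_
      · rw [abs_mul, abs_div, abs_mul, abs_neg, abs_two, abs_of_pos hq]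
        have f1 : 2 * |τ v q| / nm v ≤ 2 * (T * √(nm v : ℝ)) / nm v :=
          div_le_div_of_nonneg_right (mul_le_mul_of_nonneg_left (h1 v q) (by norm_num)) hq.le
        calc 2 * |τ v q| / nm v * |e v q| ≤ 2 * (T * √(nm v : ℝ)) / nm v * (E / nm v) :=
              mul_le_mul f1 (h4 v q) (abs_nonneg _) (by positivity)
          _ = 2 * T * E * ((√(nm v : ℝ) / nm v) / nm v) := by ring
          _ = _ := by rw [hsq, rp_mul]
      · rw [abs_pow]
        refine (pow_le_pow_left₀ (abs_nonneg _) (h4 v q) 2).trans ?_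
        rw [div_pow, div_eq_mul_inv]
        exact mul_le_mul_of_nonneg_left (rp_two v) (by positivity)
    have e2 : |((nm v : ℝ) ^ 2)⁻¹ * av v (fun q => τ v q ^ 2) - (nm v : ℝ)⁻¹| ≤
        C * (nm v : ℝ) ^ (-(3 / 2) : ℝ) := by
      have f1 : ((nm v : ℝ) ^ 2)⁻¹ * av v (fun q => τ v q ^ 2) - (nm v : ℝ)⁻¹ =
          ((nm v : ℝ) ^ 2)⁻¹ * (av v (fun q => τ v q ^ 2) - nm v) := by
        field_simp
      rw [f1, abs_mul, abs_of_pos (show (0 : ℝ) < ((nm v : ℝ) ^ 2)⁻¹ by positivity), mul_comm]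
      exact mul_le_mul (h3 v) (rp_two v) (by positivity) hC
    have e3 : ((nm v : ℝ) ^ 2)⁻¹ * av v (fun q => τ v q ^ 2) +
        av v (fun q => -2 * τ v q / nm v * e v q + e v q ^ 2) - (nm v : ℝ)⁻¹ =
        (((nm v : ℝ) ^ 2)⁻¹ * av v (fun q => τ v q ^ 2) - (nm v : ℝ)⁻¹) +
        av v (fun q => -2 * τ v q / nm v * e v q + e v q ^ 2) := by ring
    rw [e3]
    refine (abs_add_le _ _).trans ?_
    have e4 : (0 : ℝ) ≤ (nm v : ℝ) ^ (-(3 / 2) : ℝ) := by positivity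
    have e5 := mul_nonneg hE e4
    calc _ ≤ C * (nm v : ℝ) ^ (-(3 / 2) : ℝ) + (2 * T * E + E ^ 2) * (nm v : ℝ) ^ (-(3 / 2) : ℝ) :=
          add_le_add e2 e1
      _ ≤ _ := by linarith

variable {a : (𝓞 K)[X]} {α : Fin r → 𝓞 K}

/-- common data -/
theorem tq_data {y : Fin r → 𝓞 K} (ha : a.Monic) (hd : a.natDegree = 2 * g + 1)
    (hn : n + 2 + r = 2 * g + 1) (hα : Function.Injective α) (hy : ∀ j, a.eval (α j) = y j ^ 2)
    (hy0 : ∀ j, y j ≠ 0) : ∃ C : ℝ, 0 ≤ C ∧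
    (∀ v q, |tq a α (n + 2) 1 v q| ≤ 2 * g * √(nm v : ℝ)) ∧
    (∀ v, |av v (tq a α (n + 2) 1 v) + r| ≤ C * (nm v : ℝ) ^ (-(1 / 2) : ℝ)) ∧
    (∀ v, |av v (fun q => tq a α (n + 2) 1 v q ^ 2) - nm v| ≤ C) ∧
    ∀ v : HeightOneSpectrum (𝓞 K), |Ev a α (n + 2) v 2 + nm v| ≤ C := by
  obtain ⟨C, hC1, hC2⟩ := ev_asym ha hd hn hα hy hy0
  obtain ⟨C', hC3⟩ := eq_asymK ha hd hn hα hy hy0
  refine ⟨|C| + |C'|, by positivity, fun v q => ?_, fun v => ?_, fun v => ?_, fun v => ?_⟩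
  · have h1 := tq_bd (α := α) ha hd hn.le v le_rfl q
    rwa [pow_one] at h1
  · rw [av_tq]
    refine (hC1 v).trans (mul_le_mul_of_nonneg_right ?_ (by positivity))
    linarith [le_abs_self C, abs_nonneg C']
  · rw [av_sq]
    refine (hC3 v).trans ?_
    linarith [le_abs_self C', abs_nonneg C]
  · refine (hC2 v).trans ?_
    linarith [le_abs_self C, abs_nonneg C']

theorem three_le (v : HeightOneSpectrum (𝓞 K)) {D : ℝ} (hD : 0 ≤ D) :
    D * (nm v : ℝ) ^ (-(3 / 2) : ℝ) ≤ D / nm v := by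
  rw [div_eq_mul_inv]
  have h1 : (nm v : ℝ) ^ (-(3 / 2) : ℝ) ≤ (nm v : ℝ)⁻¹ := by
    rw [← Real.rpow_neg_one]
    exact Real.rpow_le_rpow_of_exponent_le (nm1 v) (by norm_num)
  exact mul_le_mul_of_nonneg_left h1 hD

/-- the numbers of points -/
theorem bl_var {y : Fin r → 𝓞 K} (ha : a.Monic) (hd : a.natDegree = 2 * g + 1)
    (hn : n + 2 + r = 2 * g + 1) (hα : Function.Injective α) (hy : ∀ j, a.eval (α j) = y j ^ 2)
    (hy0 : ∀ j, y j ≠ 0) : ∃ B C : ℝ, Var (bl a α (n + 2)) B (r + 1 / 2) C := by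
  obtain ⟨C, hC, h1, h2, h3, -⟩ := tq_data ha hd hn hα hy hy0
  obtain ⟨C', hC3⟩ := eq_asymK ha hd hn hα hy hy0
  obtain ⟨D₁, hD₁, hbl⟩ := bl_near (α := α) ha hd hn.le
  obtain ⟨D₂, hD₂, hbad⟩ := bad_av ha hd hn hα hy hy0
  set E : ℝ := 1 / 2 + (1 + 4 * g ^ 2) + (D₁ + 1) + (|C'| + D₂) with hE
  have hE0 : 0 ≤ E := by positivity
  have hA : ∀ (v : HeightOneSpectrum (𝓞 K)) (q : Fin (n + 2) → 𝓞 K ⧸ v.asIdeal),
      |bl a α (n + 2) v q + tq a α (n + 2) 1 v q / nm v| ≤ E / nm v := by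
    intro v q
    have hq := nm_pos v
    have e1 : bl a α (n + 2) v q + tq a α (n + 2) 1 v q / nm v =
        (bl a α (n + 2) v q + tq a α (n + 2) 1 v q / nm v - 1 / (2 * nm v) -
          xi a α (n + 2) v q) + (1 / 2 / nm v + xi a α (n + 2) v q) := by
      field_simp
      ring
    rw [e1]
    refine (abs_add_le _ _).trans ?_
    have f1 : |bl a α (n + 2) v q + tq a α (n + 2) 1 v q / nm v - 1 / (2 * nm v) -
          xi a α (n + 2) v q| ≤ (D₁ + 1) / nm v := by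
      refine (hbl v q).trans ?_
      rw [add_div]
      exact add_le_add (three_le v hD₁) ((le_abs_self _).trans (bad_bd v q))
    have f2 : |1 / 2 / (nm v : ℝ) + xi a α (n + 2) v q| ≤ (1 / 2 + (1 + 4 * g ^ 2)) / nm v := by
      refine (abs_add_le _ _).trans ?_
      rw [add_div]
      refine add_le_add (le_of_eq (abs_of_pos (by positivity))) (xi_bd ha hd hn.le v q)
    refine (add_le_add f1 f2).trans ?_
    rw [← add_div]
    refine div_le_div_of_nonneg_right ?_ hq.le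
    rw [hE]
    have : 0 ≤ |C'| + D₂ := by positivity
    linarith
  have hB : ∀ v : HeightOneSpectrum (𝓞 K),
      |av v (fun q : Fin (n + 2) → 𝓞 K ⧸ v.asIdeal =>
        bl a α (n + 2) v q + tq a α (n + 2) 1 v q / nm v) - 1 / 2 / nm v| ≤
        E * (nm v : ℝ) ^ (-(3 / 2) : ℝ) := by
    intro v
    have hq := nm_pos v
    have e1 : ∀ q : Fin (n + 2) → 𝓞 K ⧸ v.asIdeal,
        bl a α (n + 2) v q + tq a α (n + 2) 1 v q / nm v =
        (bl a α (n + 2) v q + tq a α (n + 2) 1 v q / nm v - 1 / (2 * nm v) -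
          xi a α (n + 2) v q) + (1 / 2 / nm v + xi a α (n + 2) v q) := by
      intro q
      field_simp
      ring
    rw [funext e1, av_add', av_add' v (fun _ => 1 / 2 / (nm v : ℝ)), av_const']
    have f1 : |av v (fun q : Fin (n + 2) → 𝓞 K ⧸ v.asIdeal =>
        bl a α (n + 2) v q + tq a α (n + 2) 1 v q / nm v - 1 / (2 * nm v) -
          xi a α (n + 2) v q)| ≤ (D₁ + D₂) * (nm v : ℝ) ^ (-(3 / 2) : ℝ) := by
      refine (av_abs' v (hbl v)).trans ?_
      rw [av_add' v (fun _ => D₁ * (nm v : ℝ) ^ (-(3 / 2) : ℝ)), av_const', add_mul]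
      exact add_le_add le_rfl (hbad v)
    have f2 := xi_av (a := a) (α := α) hC3 v
    have f3 : av v (fun q : Fin (n + 2) → 𝓞 K ⧸ v.asIdeal =>
        bl a α (n + 2) v q + tq a α (n + 2) 1 v q / nm v - 1 / (2 * nm v) -
          xi a α (n + 2) v q) + (1 / 2 / (nm v : ℝ) + av v (xi a α (n + 2) v)) - 1 / 2 / nm v =
        av v (fun q : Fin (n + 2) → 𝓞 K ⧸ v.asIdeal =>
        bl a α (n + 2) v q + tq a α (n + 2) 1 v q / nm v - 1 / (2 * nm v) -
          xi a α (n + 2) v q) + av v (xi a α (n + 2) v) := by ring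
    rw [f3]
    refine (abs_add_le _ _).trans ((add_le_add f1 f2).trans ?_)
    rw [← add_mul]
    refine mul_le_mul_of_nonneg_right ?_ (by positivity)
    rw [hE]
    have : (0 : ℝ) ≤ 1 / 2 + (1 + 4 * g ^ 2) + 1 := by positivity
    linarith
  have key := var_of (τ := tq a α (n + 2) 1)
    (e := fun v q => bl a α (n + 2) v q + tq a α (n + 2) 1 v q / nm v)
    (T := 2 * g) (ρ := r) (μ := 1 / 2) (C := C) (E := E) (by positivity) hC hE0 h1 h2 h3 hA hB
  have hfun : (fun (v : HeightOneSpectrum (𝓞 K)) (q : Fin (n + 2) → 𝓞 K ⧸ v.asIdeal) =>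
      -tq a α (n + 2) 1 v q / nm v + (bl a α (n + 2) v q + tq a α (n + 2) 1 v q / nm v)) =
      bl a α (n + 2) := by
    funext v q
    ring
  rw [hfun] at key
  exact ⟨_, _, key⟩

/-- the Jacobians -/
theorem jl_var {y : Fin r → 𝓞 K} (ha : a.Monic) (hd : a.natDegree = 2 * g + 1)
    (hn : n + 2 + r = 2 * g + 1) (hα : Function.Injective α) (hy : ∀ j, a.eval (α j) = y j ^ 2)
    (hy0 : ∀ j, y j ≠ 0) : ∃ B C : ℝ, Var (fun v q => -jl a α (n + 2) v q) B (r + 1 / 2) C := by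
  obtain ⟨C, hC, h1, h2, h3, h6⟩ := tq_data ha hd hn hα hy hy0
  obtain ⟨D₁, hD₁, hjl⟩ := jl_near (α := α) ha hd hn.le
  set E : ℝ := 1 / 2 + (1 + 2 * g) + D₁ + |C| with hE
  have hE0 : 0 ≤ E := by positivity
  have hA : ∀ (v : HeightOneSpectrum (𝓞 K)) (q : Fin (n + 2) → 𝓞 K ⧸ v.asIdeal),
      |-jl a α (n + 2) v q + tq a α (n + 2) 1 v q / nm v| ≤ E / nm v := by
    intro v q
    have hq := nm_pos v
    have e1 : -jl a α (n + 2) v q + tq a α (n + 2) 1 v q / nm v =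
        -(jl a α (n + 2) v q - tq a α (n + 2) 1 v q / nm v -
          tq a α (n + 2) 2 v q / (2 * (nm v : ℝ) ^ 2)) + (1 / 2 / nm v + xj a α (n + 2) v q) := by
      unfold xj
      field_simp
      ring
    rw [e1]
    refine (abs_add_le _ _).trans ?_
    have f1 : |-(jl a α (n + 2) v q - tq a α (n + 2) 1 v q / nm v -
          tq a α (n + 2) 2 v q / (2 * (nm v : ℝ) ^ 2))| ≤ D₁ / nm v := by
      rw [abs_neg]
      exact (hjl v q).trans (three_le v hD₁)
    have f2 : |1 / 2 / (nm v : ℝ) + xj a α (n + 2) v q| ≤ (1 / 2 + (1 + 2 * g)) / nm v := by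
      refine (abs_add_le _ _).trans ?_
      rw [add_div]
      refine add_le_add (le_of_eq (abs_of_pos (by positivity))) (xj_bd ha hd hn.le v q)
    refine (add_le_add f1 f2).trans ?_
    rw [← add_div]
    refine div_le_div_of_nonneg_right ?_ hq.le
    rw [hE]
    have : 0 ≤ |C| := by positivity
    linarith
  have hB : ∀ v : HeightOneSpectrum (𝓞 K),
      |av v (fun q : Fin (n + 2) → 𝓞 K ⧸ v.asIdeal =>
        -jl a α (n + 2) v q + tq a α (n + 2) 1 v q / nm v) - 1 / 2 / nm v| ≤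
        E * (nm v : ℝ) ^ (-(3 / 2) : ℝ) := by
    intro v
    have hq := nm_pos v
    have e1 : ∀ q : Fin (n + 2) → 𝓞 K ⧸ v.asIdeal,
        -jl a α (n + 2) v q + tq a α (n + 2) 1 v q / nm v =
        -(jl a α (n + 2) v q - tq a α (n + 2) 1 v q / nm v -
          tq a α (n + 2) 2 v q / (2 * (nm v : ℝ) ^ 2)) + (1 / 2 / nm v + xj a α (n + 2) v q) := by
      intro q
      unfold xj
      field_simp
      ring
    rw [funext e1, av_add', av_add' v (fun _ => 1 / 2 / (nm v : ℝ)), av_const']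
    have f1 : |av v (fun q : Fin (n + 2) → 𝓞 K ⧸ v.asIdeal =>
        -(jl a α (n + 2) v q - tq a α (n + 2) 1 v q / nm v -
          tq a α (n + 2) 2 v q / (2 * (nm v : ℝ) ^ 2)))| ≤ D₁ * (nm v : ℝ) ^ (-(3 / 2) : ℝ) := by
      refine (av_abs' v (g := fun _ => D₁ * (nm v : ℝ) ^ (-(3 / 2) : ℝ)) fun q => ?_).trans
        (le_of_eq (av_const' v _))
      rw [abs_neg]
      exact hjl v q
    have f2 := xj_av (a := a) (α := α) h6 v
    have f3 : av v (fun q : Fin (n + 2) → 𝓞 K ⧸ v.asIdeal =>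
        -(jl a α (n + 2) v q - tq a α (n + 2) 1 v q / nm v -
          tq a α (n + 2) 2 v q / (2 * (nm v : ℝ) ^ 2))) +
        (1 / 2 / (nm v : ℝ) + av v (xj a α (n + 2) v)) - 1 / 2 / nm v =
        av v (fun q : Fin (n + 2) → 𝓞 K ⧸ v.asIdeal =>
        -(jl a α (n + 2) v q - tq a α (n + 2) 1 v q / nm v -
          tq a α (n + 2) 2 v q / (2 * (nm v : ℝ) ^ 2))) + av v (xj a α (n + 2) v) := by ring
    rw [f3]
    refine (abs_add_le _ _).trans ((add_le_add f1 f2).trans ?_)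
    rw [← add_mul]
    refine mul_le_mul_of_nonneg_right ?_ (by positivity)
    rw [hE]
    have : (0 : ℝ) ≤ 1 / 2 + (1 + 2 * g) := by positivity
    linarith
  have key := var_of (τ := tq a α (n + 2) 1)
    (e := fun v q => -jl a α (n + 2) v q + tq a α (n + 2) 1 v q / nm v)
    (T := 2 * g) (ρ := r) (μ := 1 / 2) (C := C) (E := E) (by positivity) hC hE0 h1 h2 h3 hA hB
  have hfun : (fun (v : HeightOneSpectrum (𝓞 K)) (q : Fin (n + 2) → 𝓞 K ⧸ v.asIdeal) =>
      -tq a α (n + 2) 1 v q / nm v + (-jl a α (n + 2) v q + tq a α (n + 2) 1 v q / nm v)) =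
      fun v q => -jl a α (n + 2) v q := by
    funext v q
    ring
  rw [hfun] at key
  exact ⟨_, _, key⟩

/-- the traces -/
theorem tq_var {y : Fin r → 𝓞 K} (ha : a.Monic) (hd : a.natDegree = 2 * g + 1)
    (hn : n + 2 + r = 2 * g + 1) (hα : Function.Injective α) (hy : ∀ j, a.eval (α j) = y j ^ 2)
    (hy0 : ∀ j, y j ≠ 0) :
    ∃ B C : ℝ, Var (fun v q => -tq a α (n + 2) 1 v q / nm v) B r C := by
  obtain ⟨C, hC, h1, h2, h3, -⟩ := tq_data ha hd hn hα hy hy0
  have key := var_of (τ := tq a α (n + 2) 1) (e := fun _ _ => 0)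
    (T := 2 * g) (ρ := r) (μ := 0) (C := C) (E := 0) (by positivity) hC le_rfl h1 h2 h3
    (fun v q => by simp) (fun v => by
      rw [av_const']
      simp)
  simp only [add_zero] at key
  exact ⟨_, _, key⟩

end Pool.Agent.W5h26.LD
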