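import Pool.Agent.W5h26.LD.Mert
import Pool.Agent.W5h26.CL.Lim

/-!
# The exponential moments of sums of independent local variables
-/

set_option autoImplicit false
set_option linter.unusedSectionVars false
set_option maxHeartbeats 400000

open Filter Topology Complex
open NumberField IsDedekindDomain Pool.Agent.H921R2.TatePole
open Pool.Agent.R409.RA (fieldQuot finiteQuot)

namespace Pool.Agent.W5h26.LD

open Pool.Agent.W5h26.EP Pool.Agent.W5h26.AO Pool.Agent.W5h26.CL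

variable {K : Type} [Field K] [NumberField K] {n : ℕ}

/-- local variables with mean `m / q_v` and variance `1 / q_v`, up to `O(q_v ^ (-3/2))` -/
structure Var (φ : ∀ v : HeightOneSpectrum (𝓞 K), (Fin n → 𝓞 K ⧸ v.asIdeal) → ℝ) (B m C : ℝ) :
    Prop where
  B0 : 0 ≤ B
  C0 : 0 ≤ C
  bd : ∀ v h, |φ v h| ≤ B * (nm v : ℝ) ^ (-(1 / 2) : ℝ)
  one : ∀ v, |av v (φ v) - m / nm v| ≤ C * (nm v : ℝ) ^ (-(3 / 2) : ℝ)
  sq : ∀ v, |av v (fun h => φ v h ^ 2) - (nm v : ℝ)⁻¹| ≤ C * (nm v : ℝ) ^ (-(3 / 2) : ℝ)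

variable {φ : ∀ v : HeightOneSpectrum (𝓞 K), (Fin n → 𝓞 K ⧸ v.asIdeal) → ℝ} {B m C : ℝ}

/-- the local exponential moment -/
noncomputable def EV (φ : ∀ v : HeightOneSpectrum (𝓞 K), (Fin n → 𝓞 K ⧸ v.asIdeal) → ℝ) (w : ℂ)
    (v : HeightOneSpectrum (𝓞 K)) : ℂ :=
  (∑ h, cexp (w * φ v h)) / (nm v : ℂ) ^ n

theorem exp_three {z : ℂ} {D : ℝ} (hz : ‖z‖ ≤ D) :
    ‖cexp z - 1 - z - z ^ 2 / 2‖ ≤ ‖z‖ ^ 3 * Real.exp D := by
  have h1 := Complex.norm_exp_sub_sum_le_norm_mul_exp z 3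
  have hsum : ∑ m ∈ Finset.range 3, z ^ m / (m.factorial : ℂ) = 1 + z + z ^ 2 / 2 := by
    simp [Finset.sum_range_succ, Nat.factorial]
  rw [hsum] at h1
  have h2 : cexp z - 1 - z - z ^ 2 / 2 = cexp z - (1 + z + z ^ 2 / 2) := by ring
  rw [h2]
  exact h1.trans (mul_le_mul_of_nonneg_left (Real.exp_le_exp.2 hz) (by positivity))

theorem half_cube (v : HeightOneSpectrum (𝓞 K)) :
    ((nm v : ℝ) ^ (-(1 / 2) : ℝ)) ^ 3 = (nm v : ℝ) ^ (-(3 / 2) : ℝ) := by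
  rw [← Real.rpow_natCast, ← Real.rpow_mul (nm_pos v).le]
  norm_num

theorem half_le (v : HeightOneSpectrum (𝓞 K)) : (nm v : ℝ) ^ (-(1 / 2) : ℝ) ≤ 1 :=
  Real.rpow_le_one_of_one_le_of_nonpos (nm1 v) (by norm_num)

theorem Var.bd1 (H : Var φ B m C) (v : HeightOneSpectrum (𝓞 K)) (h : Fin n → 𝓞 K ⧸ v.asIdeal) :
    |φ v h| ≤ B := (H.bd v h).trans (mul_le_of_le_one_right H.B0 (half_le v))

/-- the expansion of the local moment -/
theorem ev_expand (H : Var φ B m C) (w : ℂ) (v : HeightOneSpectrum (𝓞 K)) :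
    ‖EV φ w v - 1 - (w * m + w ^ 2 / 2) / nm v‖ ≤
      ((‖w‖ * B) ^ 3 * Real.exp (‖w‖ * B) + ‖w‖ * C + ‖w‖ ^ 2 / 2 * C) *
        (nm v : ℝ) ^ (-(3 / 2) : ℝ) := by
  have hq' : (0 : ℝ) < (nm v : ℝ) ^ n := by
    have := nm_pos v
    positivity
  set N : ℂ := (nm v : ℂ) ^ n with hN
  have hN0 : N ≠ 0 := pow_ne_zero _ (nmC_ne v)
  have hcard : (Fintype.card (Fin n → 𝓞 K ⧸ v.asIdeal) : ℂ) = N := by
    rw [card_loc]
    push_cast
    rfl
  have h1 : ‖(∑ h, (cexp (w * φ v h) - 1 - w * φ v h - (w * φ v h) ^ 2 / 2)) / N‖ ≤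
      (‖w‖ * B) ^ 3 * Real.exp (‖w‖ * B) * (nm v : ℝ) ^ (-(3 / 2) : ℝ) := by
    rw [norm_div, hN, norm_pow, Complex.norm_natCast, div_le_iff₀ hq']
    have h2 : ∀ h : Fin n → 𝓞 K ⧸ v.asIdeal,
        ‖cexp (w * φ v h) - 1 - w * φ v h - (w * φ v h) ^ 2 / 2‖ ≤
        (‖w‖ * B) ^ 3 * Real.exp (‖w‖ * B) * (nm v : ℝ) ^ (-(3 / 2) : ℝ) := by
      intro h
      have h3 : ‖w * (φ v h : ℂ)‖ ≤ ‖w‖ * B := by
        rw [norm_mul, Complex.norm_real, Real.norm_eq_abs]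
        exact mul_le_mul_of_nonneg_left (H.bd1 v h) (norm_nonneg w)
      refine (exp_three h3).trans ?_
      have h4 : ‖w * (φ v h : ℂ)‖ ≤ ‖w‖ * B * (nm v : ℝ) ^ (-(1 / 2) : ℝ) := by
        rw [norm_mul, Complex.norm_real, Real.norm_eq_abs, mul_assoc]
        exact mul_le_mul_of_nonneg_left (H.bd v h) (norm_nonneg w)
      have h5 := pow_le_pow_left₀ (norm_nonneg _) h4 3
      rw [mul_pow, half_cube] at h5
      calc ‖w * (φ v h : ℂ)‖ ^ 3 * Real.exp (‖w‖ * B) ≤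
          (‖w‖ * B) ^ 3 * (nm v : ℝ) ^ (-(3 / 2) : ℝ) * Real.exp (‖w‖ * B) :=
            mul_le_mul_of_nonneg_right h5 (Real.exp_pos _).le
        _ = _ := by ring
    refine (norm_sum_le _ _).trans ((Finset.sum_le_card_nsmul _ _ _ fun h _ => h2 h).trans
      (le_of_eq ?_))
    rw [Finset.card_univ, card_loc, nsmul_eq_mul]
    push_cast
    ring
  have h2 : EV φ w v - 1 - (w * m + w ^ 2 / 2) / nm v =
      (∑ h, (cexp (w * φ v h) - 1 - w * φ v h - (w * φ v h) ^ 2 / 2)) / N +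
      w * ((av v (φ v) - m / nm v : ℝ) : ℂ) +
      w ^ 2 / 2 * ((av v (fun h => φ v h ^ 2) - (nm v : ℝ)⁻¹ : ℝ) : ℂ) := by
    have e1 : ∑ h : Fin n → 𝓞 K ⧸ v.asIdeal,
        (cexp (w * φ v h) - 1 - w * φ v h - (w * φ v h) ^ 2 / 2) =
        (∑ h, cexp (w * φ v h)) - N - w * (∑ h, (φ v h : ℂ)) - w ^ 2 / 2 * ∑ h, (φ v h : ℂ) ^ 2 := by
      simp only [Finset.sum_sub_distrib, Finset.sum_const, Finset.card_univ, nsmul_eq_mul, hcard,
        mul_one, Finset.mul_sum]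
      congr 1
      refine Finset.sum_congr rfl fun h _ => ?_
      ring
    rw [e1]
    unfold EV av
    push_cast
    rw [← hN]
    have h0 := nmC_ne v
    field_simp
    ring
  rw [h2]
  refine (norm_add₃_le).trans ?_
  have h3 : ‖w * ((av v (φ v) - m / nm v : ℝ) : ℂ)‖ ≤ ‖w‖ * C * (nm v : ℝ) ^ (-(3 / 2) : ℝ) := by
    rw [norm_mul, Complex.norm_real, Real.norm_eq_abs, mul_assoc]
    exact mul_le_mul_of_nonneg_left (H.one v) (norm_nonneg w)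
  have h4 : ‖w ^ 2 / 2 * ((av v (fun h => φ v h ^ 2) - (nm v : ℝ)⁻¹ : ℝ) : ℂ)‖ ≤
      ‖w‖ ^ 2 / 2 * C * (nm v : ℝ) ^ (-(3 / 2) : ℝ) := by
    rw [norm_mul, Complex.norm_real, Real.norm_eq_abs, mul_assoc, norm_div, norm_pow,
      Complex.norm_ofNat]
    exact mul_le_mul_of_nonneg_left (H.sq v) (by positivity)
  calc _ ≤ (‖w‖ * B) ^ 3 * Real.exp (‖w‖ * B) * (nm v : ℝ) ^ (-(3 / 2) : ℝ) +
        ‖w‖ * C * (nm v : ℝ) ^ (-(3 / 2) : ℝ) + ‖w‖ ^ 2 / 2 * C * (nm v : ℝ) ^ (-(3 / 2) : ℝ) :=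
        add_le_add (add_le_add h1 h3) h4
    _ = _ := by ring

/-- the exponent -/
noncomputable def ex (m : ℝ) (w : ℂ) : ℂ := w * m + w ^ 2 / 2

/-- the corrected local moment -/
noncomputable def HV (φ : ∀ v : HeightOneSpectrum (𝓞 K), (Fin n → 𝓞 K ⧸ v.asIdeal) → ℝ) (m : ℝ)
    (w : ℂ) (v : HeightOneSpectrum (𝓞 K)) : ℂ :=
  EV φ w v * cexp (-(ex m w * ((nm v : ℝ)⁻¹ : ℝ)))

theorem hv_bd (H : Var φ B m C) (w : ℂ) : ∃ u : HeightOneSpectrum (𝓞 K) → ℝ, Summable u ∧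
    ∀ v, ‖HV φ m w v - 1‖ ≤ u v := by
  set D₁ : ℝ := (‖w‖ * B) ^ 3 * Real.exp (‖w‖ * B) + ‖w‖ * C + ‖w‖ ^ 2 / 2 * C with hD₁
  have hB := H.B0
  have hC := H.C0
  have hD₁0 : 0 ≤ D₁ := by positivity
  set D : ℝ := ‖ex m w‖ + D₁ with hD
  have hD0 : 0 ≤ D := by positivity
  obtain ⟨C₃, hC₃, hcorr⟩ := corr hD0
  refine ⟨fun v => C₃ * (‖ex m w‖ ^ 2 + D₁) * (nm v : ℝ) ^ (-(3 / 2) : ℝ),
    (nm_summable (K := K) (by norm_num)).mul_left _, fun v => ?_⟩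
  have hq := nm_pos v
  have hinv : (nm v : ℝ)⁻¹ ≤ 1 := inv_le_one_of_one_le₀ (nm1 v)
  set u : ℂ := -(ex m w * ((nm v : ℝ)⁻¹ : ℝ)) with hu
  have hun : ‖u‖ = ‖ex m w‖ * (nm v : ℝ)⁻¹ := by
    rw [hu, norm_neg, norm_mul, Complex.norm_real, Real.norm_eq_abs, abs_of_pos (inv_pos.2 hq)]
  have h32 : (nm v : ℝ) ^ (-(3 / 2) : ℝ) ≤ 1 :=
    Real.rpow_le_one_of_one_le_of_nonpos (nm1 v) (by norm_num)
  have h1 : ‖EV φ w v - 1 + u‖ ≤ D₁ * (nm v : ℝ) ^ (-(3 / 2) : ℝ) := by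
    have h2 := ev_expand H w v
    have h3 : EV φ w v - 1 + u = EV φ w v - 1 - (w * m + w ^ 2 / 2) / nm v := by
      rw [hu]
      unfold ex
      push_cast
      ring
    rw [h3]
    exact h2
  have h2 : ‖u‖ ≤ D := by
    rw [hun]
    refine (mul_le_of_le_one_right (norm_nonneg _) hinv).trans ?_
    rw [hD]
    linarith
  have h3 : ‖EV φ w v - 1 + u‖ ≤ D := by
    refine h1.trans ((mul_le_of_le_one_right hD₁0 h32).trans ?_)
    rw [hD]
    linarith [norm_nonneg (ex m w)]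
  have h4 := hcorr (EV φ w v) u h2 h3
  have h5 : ‖u‖ ^ 2 ≤ ‖ex m w‖ ^ 2 * (nm v : ℝ) ^ (-(3 / 2) : ℝ) := by
    rw [hun, mul_pow]
    refine mul_le_mul_of_nonneg_left ?_ (by positivity)
    rw [← Real.rpow_neg_one, ← Real.rpow_natCast, ← Real.rpow_mul hq.le]
    refine Real.rpow_le_rpow_of_exponent_le (nm1 v) ?_
    norm_num
  show ‖EV φ w v * cexp u - 1‖ ≤ _
  refine h4.trans ?_
  show _ ≤ C₃ * (‖ex m w‖ ^ 2 + D₁) * (nm v : ℝ) ^ (-(3 / 2) : ℝ)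
  rw [mul_assoc]
  refine mul_le_mul_of_nonneg_left ?_ hC₃
  linarith

/-- the limit function -/
noncomputable def Phi (φ : ∀ v : HeightOneSpectrum (𝓞 K), (Fin n → 𝓞 K ⧸ v.asIdeal) → ℝ) (m M : ℝ)
    (w : ℂ) : ℂ :=
  cexp (ex m w * M) * ∏' v, HV φ m w v

theorem px_atTop : Tendsto (fun X : ℝ => PX K X) atTop atTop := by
  refine tendsto_atTop_finset_of_monotone (fun X Y h v hv => ?_) fun v => ⟨nm v, ?_⟩
  · rw [mem_PX] at hv ⊢
    exact hv.trans h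
  · rw [mem_PX]

/-- **The moments of the model.** -/
theorem model_moment (H : Var φ B m C) {M : ℝ}
    (hM : Tendsto (fun X : ℝ => MX K X - Real.log (Real.log X)) atTop (𝓝 M)) (w : ℂ) :
    Tendsto (fun X : ℝ => (∏ v ∈ PX K X, EV φ w v) / (Real.log X : ℂ) ^ (ex m w)) atTop
      (𝓝 (Phi φ m M w)) := by
  obtain ⟨u, hu, hub⟩ := hv_bd H w
  have h1 : Tendsto (fun X : ℝ => ∏ v ∈ PX K X, HV φ m w v) atTop (𝓝 (∏' v, HV φ m w v)) := by
    have h2 := (hasProd_of_bd hu hub).1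
    have h3 : Tendsto (fun T : Finset (HeightOneSpectrum (𝓞 K)) => ∏ v ∈ T, HV φ m w v) atTop
        (𝓝 (∏' v, HV φ m w v)) := by simpa [HasProd] using h2
    exact h3.comp px_atTop
  have h2 : Tendsto (fun X : ℝ => cexp (ex m w * ((MX K X - Real.log (Real.log X) : ℝ) : ℂ))) atTop
      (𝓝 (cexp (ex m w * M))) := by
    have h3 := (Complex.continuous_ofReal.tendsto M).comp hM
    exact ((h3.const_mul (ex m w))).cexp
  unfold Phi
  refine (h2.mul h1).congr' ?_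
  filter_upwards [Real.tendsto_log_atTop.eventually (eventually_gt_atTop 0)] with X hX
  have h3 : (Real.log X : ℂ) ^ (ex m w) = cexp (Real.log (Real.log X) * ex m w) := by
    rw [Complex.cpow_def_of_ne_zero (by exact_mod_cast hX.ne'), ← Complex.ofReal_log hX.le]
  have h4 : ∏ v ∈ PX K X, HV φ m w v =
      (∏ v ∈ PX K X, EV φ w v) * cexp (-(ex m w * (MX K X : ℂ))) := by
    unfold HV MX
    rw [Finset.prod_mul_distrib, ← Complex.exp_sum]
    congr 2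
    push_cast
    rw [Finset.sum_neg_distrib, Finset.mul_sum]
  rw [h3, h4, ← mul_assoc, mul_comm (cexp _) (∏ v ∈ PX K X, EV φ w v), mul_assoc, ← Complex.exp_add,
    div_eq_mul_inv, ← Complex.exp_neg]
  congr 2
  push_cast
  ring

theorem ev_real (t : ℝ) (v : HeightOneSpectrum (𝓞 K)) :
    EV φ (t : ℂ) v = ((ev φ v t : ℝ) : ℂ) := by
  unfold EV ev
  push_cast
  rfl

theorem ev_pos (t : ℝ) (v : HeightOneSpectrum (𝓞 K)) : 0 < ev φ v t := by
  unfold ev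
  have h1 : 0 < ∑ h : Fin n → 𝓞 K ⧸ v.asIdeal, Real.exp (t * φ v h) :=
    Finset.sum_pos (fun h _ => Real.exp_pos _) Finset.univ_nonempty
  have := nm_pos v
  positivity

theorem ex_real (m t : ℝ) : ex m (t : ℂ) = ((t * m + t ^ 2 / 2 : ℝ) : ℂ) := by
  unfold ex
  push_cast
  ring

/-- the limit function is positive on the real line -/
theorem phi_pos (H : Var φ B m C) (M t : ℝ) : ∃ x : ℝ, 0 < x ∧ Phi φ m M t = x := by
  obtain ⟨u, hu, hub⟩ := hv_bd H t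
  obtain ⟨h1, h2⟩ := hasProd_of_bd hu hub
  have h3 : ∀ v, HV φ m t v = ((ev φ v t * Real.exp (-((t * m + t ^ 2 / 2) * (nm v : ℝ)⁻¹)) : ℝ) : ℂ) := by
    intro v
    unfold HV
    rw [ev_real, ex_real]
    push_cast
    ring
  have h4 : ∀ T : Finset (HeightOneSpectrum (𝓞 K)), ∏ v ∈ T, HV φ m t v =
      ((∏ v ∈ T, ev φ v t * Real.exp (-((t * m + t ^ 2 / 2) * (nm v : ℝ)⁻¹)) : ℝ) : ℂ) := by
    intro T
    push_cast
    exact Finset.prod_congr rfl fun v _ => by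
      rw [h3]
      push_cast
      ring
  have h5 : Tendsto (fun T : Finset (HeightOneSpectrum (𝓞 K)) => ∏ v ∈ T, HV φ m t v) atTop
      (𝓝 (∏' v, HV φ m t v)) := by simpa [HasProd] using h1
  have h6 : (∏' v, HV φ m t v).im = 0 := by
    have h7 := (Complex.continuous_im.tendsto _).comp h5
    refine tendsto_nhds_unique h7 (tendsto_const_nhds.congr fun T => ?_)
    simp only [Function.comp_apply]
    rw [h4, Complex.ofReal_im]
  have h7 : 0 ≤ (∏' v, HV φ m t v).re := by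
    have h8 := (Complex.continuous_re.tendsto _).comp h5
    refine ge_of_tendsto' h8 fun T => ?_
    simp only [Function.comp_apply]
    rw [h4, Complex.ofReal_re]
    exact Finset.prod_nonneg fun v _ => mul_nonneg (ev_pos t v).le (Real.exp_pos _).le
  have h8 : (∏' v, HV φ m t v) ≠ 0 := h2 fun v => by
    rw [h3]
    exact_mod_cast (mul_pos (ev_pos t v) (Real.exp_pos _)).ne'
  have h9 : (∏' v, HV φ m t v) = (((∏' v, HV φ m t v).re : ℝ) : ℂ) := by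
    apply Complex.ext
    · rw [Complex.ofReal_re]
    · rw [Complex.ofReal_im, h6]
  have h10 : 0 < (∏' v, HV φ m t v).re := by
    refine lt_of_le_of_ne h7 fun h => h8 ?_
    rw [h9, ← h]
    rfl
  refine ⟨Real.exp ((t * m + t ^ 2 / 2) * M) * (∏' v, HV φ m t v).re, by positivity, ?_⟩
  unfold Phi
  rw [ex_real, h9]
  push_cast
  rfl

end Pool.Agent.W5h26.LD
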