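import Pool.Agent.W5h26.CL.Mert
import Pool.Agent.W5h21.TB.Core
import Pool.Agent.Helper923.HMertens

/-!
# Mertens' theorem for the prime ideals of a number field, with the constant
-/

set_option autoImplicit false
set_option linter.unusedSectionVars false
set_option maxHeartbeats 400000

open Filter Topology
open NumberField IsDedekindDomain Pool.Agent.H921R2.TatePole

namespace Pool.Agent.W5h26.LD

open Pool.Agent.W5h26.EP Pool.Agent.W5h26.AO Pool.Agent.W5h26.CL
open Pool.Agent.W5h21.TB (PS DS Slow core)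

section
variable (F : Type) [Field F] [NumberField F] (k : Type) [Field k] [Finite k]

theorem hom_int : Finite (𝓞 F →+* k) ∧ Nat.card (𝓞 F →+* k) ≤ Module.finrank ℤ (𝓞 F) := by
  classical
  let B := Module.Free.chooseBasis ℤ (𝓞 F)
  let ev : (𝓞 F →+* k) → (Module.Free.ChooseBasisIndex ℤ (𝓞 F) → k) := fun ψ i => ψ (B i)
  have hdet : ∀ (ψ : 𝓞 F →+* k) (x : 𝓞 F), ψ x = ∑ i, ((B.repr x i : ℤ) : k) * ψ (B i) := by
    intro ψ x
    conv_lhs => rw [← B.sum_repr x]
    rw [map_sum]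
    refine Finset.sum_congr rfl fun i _ => ?_
    rw [zsmul_eq_mul, map_mul, map_intCast]
  have hinj : Function.Injective ev := by
    intro ψ φ h
    ext x
    rw [hdet ψ x, hdet φ x]
    refine Finset.sum_congr rfl fun i _ => ?_
    have := congrFun h i
    change ψ (B i) = φ (B i) at this
    rw [this]
  have hfin : Finite (𝓞 F →+* k) := Finite.of_injective ev hinj
  refine ⟨hfin, ?_⟩
  let _ := Fintype.ofFinite (𝓞 F →+* k)
  have hli : LinearIndependent k ev := by
    rw [Fintype.linearIndependent_iff]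
    intro c hc
    have h1 : LinearIndependent k (fun ψ : 𝓞 F →+* k => ((ψ : 𝓞 F →* k) : 𝓞 F → k)) :=
      (linearIndependent_monoidHom (𝓞 F) k).comp (fun ψ : 𝓞 F →+* k => (ψ : 𝓞 F →* k))
        (fun ψ φ h => by
          ext x
          exact congrArg (fun g : 𝓞 F →* k => g x) h)
    refine Fintype.linearIndependent_iff.1 h1 c ?_
    funext x
    rw [Finset.sum_apply]
    change ∑ ψ, c ψ * ψ x = 0
    have h2 : ∀ i, ∑ ψ, c ψ * ψ (B i) = 0 := by
      intro i
      have := congrFun hc i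
      rw [Finset.sum_apply] at this
      exact this
    calc ∑ ψ, c ψ * ψ x = ∑ ψ, ∑ i, ((B.repr x i : ℤ) : k) * (c ψ * ψ (B i)) := by
          refine Finset.sum_congr rfl fun ψ _ => ?_
          rw [hdet ψ x, Finset.mul_sum]
          refine Finset.sum_congr rfl fun i _ => ?_
          ring
      _ = ∑ i, ((B.repr x i : ℤ) : k) * ∑ ψ, c ψ * ψ (B i) := by
          rw [Finset.sum_comm]
          refine Finset.sum_congr rfl fun i _ => ?_
          rw [Finset.mul_sum]
      _ = 0 := by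
          refine Finset.sum_eq_zero fun i _ => ?_
          rw [h2, mul_zero]
  have h3 := hli.fintype_card_le_finrank
  rw [Module.finrank_fintype_fun_eq_card] at h3
  rw [Nat.card_eq_fintype_card, Module.finrank_eq_card_chooseBasisIndex]
  exact h3

end

/-- the sum over the primes in a short interval -/
theorem prime_sum : ∃ C : ℝ, 0 ≤ C ∧ ∀ t s : ℝ, 2 ≤ t → t ≤ s → ∀ S : Finset Nat.Primes,
    (∀ p ∈ S, t < Real.log (p : ℕ) ∧ Real.log (p : ℕ) ≤ s) →
    ∑ p ∈ S, (1 : ℝ) / ((p : ℕ) : ℝ) ≤ Real.log (s / t) + C / t := by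
  obtain ⟨C, hC0, hC⟩ := Pool.Agent.Helper923.HMertens.mertens_ratio
  refine ⟨2 + 2 * C, by positivity, fun t s ht hts S hS => ?_⟩
  have hs : 2 ≤ s := ht.trans hts
  set a := ⌊Real.exp t⌋₊ with ha
  set b := ⌊Real.exp s⌋₊ with hb
  have he2 : (2 : ℝ) < Real.exp 1 := by
    have := Real.exp_one_gt_d9
    linarith
  have he3 : (4 : ℝ) ≤ Real.exp t := by
    have h1 : Real.exp 2 ≤ Real.exp t := Real.exp_le_exp.2 ht
    have h2 : Real.exp 2 = Real.exp 1 * Real.exp 1 := by
      rw [← Real.exp_add]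
      norm_num
    nlinarith
  have hab : a ≤ b := Nat.floor_le_floor (Real.exp_le_exp.2 hts)
  have ha2 : 2 ≤ a := Nat.le_floor (by push_cast; linarith)
  have h1 := hC a b ha2 hab
  have h2 : ∑ p ∈ S, (1 : ℝ) / ((p : ℕ) : ℝ) ≤
      ∑ p ∈ (Finset.Ioc a b).filter Nat.Prime, (1 : ℝ) / p := by
    have h3 : ∑ p ∈ S, (1 : ℝ) / ((p : ℕ) : ℝ) =
        ∑ p ∈ S.image (fun p : Nat.Primes => (p : ℕ)), (1 : ℝ) / (p : ℝ) := by
      rw [Finset.sum_image]
      intro x _ y _ hxy
      exact Subtype.ext hxy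
    rw [h3]
    refine Finset.sum_le_sum_of_subset_of_nonneg (fun q hq => ?_) fun _ _ _ => by positivity
    obtain ⟨p, hp, rfl⟩ := Finset.mem_image.1 hq
    obtain ⟨h4, h5⟩ := hS p hp
    have hp0 : (0 : ℝ) < ((p : ℕ) : ℝ) := by exact_mod_cast p.2.pos
    rw [Finset.mem_filter, Finset.mem_Ioc]
    refine ⟨⟨?_, ?_⟩, p.2⟩
    · rw [ha, Nat.floor_lt (Real.exp_nonneg _)]
      exact (Real.lt_log_iff_exp_lt hp0).1 h4
    · exact Nat.le_floor ((Real.log_le_iff_le_exp hp0).1 h5)
  have hla : t - 1 ≤ Real.log a := by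
    have h3 : Real.exp t - 1 < a := by
      have := Nat.lt_floor_add_one (Real.exp t)
      rw [← ha] at this
      linarith
    have h4 : Real.exp (t - 1) ≤ a := by
      rw [Real.exp_sub]
      have h5 : Real.exp t / Real.exp 1 ≤ Real.exp t / 2 :=
        div_le_div_of_nonneg_left (Real.exp_nonneg _) (by norm_num) he2.le
      linarith
    rw [Real.le_log_iff_exp_le (by exact_mod_cast (by omega : 0 < a))]
    exact h4
  have hlb : Real.log b ≤ s := by
    rw [Real.log_le_iff_le_exp (by exact_mod_cast (by omega : 0 < b))]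
    exact Nat.floor_le (Real.exp_nonneg _)
  have hlb0 : 0 < Real.log b := by
    apply Real.log_pos
    exact_mod_cast (by omega : 1 < b)
  have ht1 : 0 < t - 1 := by linarith
  have hla0 : 0 < Real.log a := by linarith
  have ht0 : 0 < t := by linarith
  have hs0 : 0 < s := by linarith
  have h3 : Real.log (Real.log b / Real.log a) ≤ Real.log (s / t) + 2 / t := by
    have h4 : Real.log b / Real.log a ≤ s / (t - 1) := by
      rw [div_le_div_iff₀ hla0 ht1]
      nlinarith
    have h5 : s / (t - 1) = (s / t) * (t / (t - 1)) := by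
      field_simp
    have h6 : Real.log (t / (t - 1)) ≤ 2 / t := by
      refine (Real.log_le_sub_one_of_pos (by positivity)).trans ?_
      have h7 : t / (t - 1) - 1 = 1 / (t - 1) := by
        field_simp
        ring
      rw [h7, div_le_div_iff₀ ht1 ht0]
      linarith
    calc Real.log (Real.log b / Real.log a) ≤ Real.log (s / (t - 1)) :=
          Real.log_le_log (by positivity) h4
      _ = Real.log (s / t) + Real.log (t / (t - 1)) := by
          rw [h5, Real.log_mul (by positivity) (by positivity)]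
      _ ≤ _ := by linarith
  have h4 : C / Real.log a ≤ 2 * C / t := by
    rw [div_le_div_iff₀ hla0 ht0]
    nlinarith
  have h5 := (abs_le.1 h1).2
  calc ∑ p ∈ S, (1 : ℝ) / ((p : ℕ) : ℝ) ≤
      Real.log (Real.log b / Real.log a) + C / Real.log a := by linarith
    _ ≤ (Real.log (s / t) + 2 / t) + 2 * C / t := by linarith
    _ = Real.log (s / t) + (2 + 2 * C) / t := by ring

/-- the same for sets of natural numbers -/
theorem prime_sum' : ∃ C : ℝ, 0 ≤ C ∧ ∀ t s : ℝ, 2 ≤ t → t ≤ s → ∀ S : Finset ℕ,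
    (∀ p ∈ S, p.Prime ∧ t < Real.log p ∧ Real.log p ≤ s) →
    ∑ p ∈ S, (1 : ℝ) / (p : ℝ) ≤ Real.log (s / t) + C / t := by
  classical
  obtain ⟨C, hC, h⟩ := prime_sum
  refine ⟨C, hC, fun t s ht hts S hS => ?_⟩
  have h1 := h t s ht hts (S.subtype Nat.Prime) (fun p hp => (hS _ (Finset.mem_subtype.1 hp)).2)
  refine le_trans (le_of_eq ?_) h1
  exact (Finset.sum_subtype_of_mem (fun p : ℕ => (1 : ℝ) / (p : ℝ)) fun p hp => (hS p hp).1).symm

variable {K : Type} [Field K] [NumberField K]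

/-- the number of the primes with a given norm -/
theorem card_norm (S : Finset (HeightOneSpectrum (𝓞 K))) (q : ℕ) (h : ∀ v ∈ S, nm v = q) :
    S.card ≤ Module.finrank ℤ (𝓞 K) := by
  classical
  rcases S.eq_empty_or_nonempty with rfl | ⟨v₀, hv₀⟩
  · simp
  let _ := Pool.Agent.R409.RA.fieldQuot v₀
  have hfin : Finite (𝓞 K ⧸ v₀.asIdeal) := Pool.Agent.R409.RA.finiteQuot v₀
  have hex : ∀ v : S, ∃ φ : 𝓞 K →+* (𝓞 K ⧸ v₀.asIdeal), RingHom.ker φ = v.1.asIdeal := by
    intro v
    let _ := Pool.Agent.R409.RA.fieldQuot v.1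
    have hfin' : Finite (𝓞 K ⧸ v.1.asIdeal) := Pool.Agent.R409.RA.finiteQuot v.1
    let _ := Fintype.ofFinite (𝓞 K ⧸ v₀.asIdeal)
    let _ := Fintype.ofFinite (𝓞 K ⧸ v.1.asIdeal)
    have hc : Fintype.card (𝓞 K ⧸ v.1.asIdeal) = Fintype.card (𝓞 K ⧸ v₀.asIdeal) := by
      have e1 : Nat.card (𝓞 K ⧸ v.1.asIdeal) = nm v.1 := rfl
      have e2 : Nat.card (𝓞 K ⧸ v₀.asIdeal) = nm v₀ := rfl
      rw [← Nat.card_eq_fintype_card, ← Nat.card_eq_fintype_card, e1, e2, h v.1 v.2, h v₀ hv₀]
    let e := FiniteField.ringEquivOfCardEq hc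
    refine ⟨(e : (𝓞 K ⧸ v.1.asIdeal) →+* (𝓞 K ⧸ v₀.asIdeal)).comp (Ideal.Quotient.mk v.1.asIdeal), ?_⟩
    ext x
    rw [RingHom.mem_ker, RingHom.comp_apply, ← Ideal.Quotient.eq_zero_iff_mem]
    exact map_eq_zero_iff e e.injective
  choose φ hφ using hex
  obtain ⟨h1, h2⟩ := hom_int K (𝓞 K ⧸ v₀.asIdeal)
  have hinj : Function.Injective φ := by
    intro v w hvw
    have h3 : v.1.asIdeal = w.1.asIdeal := by rw [← hφ v, ← hφ w, hvw]
    exact Subtype.ext (HeightOneSpectrum.ext h3)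
  have h3 := Nat.card_le_card_of_injective φ hinj
  rw [Nat.card_eq_fintype_card, Fintype.card_coe] at h3
  exact h3.trans h2

theorem prime_pow (v : HeightOneSpectrum (𝓞 K)) : IsPrimePow (nm v) := by
  let _ := Pool.Agent.R409.RA.fieldQuot v
  have hfin : Finite (𝓞 K ⧸ v.asIdeal) := Pool.Agent.R409.RA.finiteQuot v
  let _ := Fintype.ofFinite (𝓞 K ⧸ v.asIdeal)
  have h1 := FiniteField.isPrimePow_card (𝓞 K ⧸ v.asIdeal)
  have e1 : Nat.card (𝓞 K ⧸ v.asIdeal) = nm v := rfl
  rw [← Nat.card_eq_fintype_card, e1] at h1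
  exact h1

/-- the reciprocals of the prime powers which are not prime -/
noncomputable def np (q : ℕ) : ℝ := if IsPrimePow q ∧ ¬ q.Prime then (q : ℝ)⁻¹ else 0

theorem np_nonneg (q : ℕ) : 0 ≤ np q := by
  unfold np
  split_ifs <;> positivity

theorem np_summable : Summable np := by
  have h1 := (ArithmeticFunction.vonMangoldt.summable_residueClass_non_primes_div
    (a := (0 : ZMod 1))).mul_left ((Real.log 2)⁻¹)
  refine Summable.of_nonneg_of_le np_nonneg (fun q => ?_) h1
  have hl : 0 < Real.log 2 := Real.log_pos (by norm_num)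
  have hres : ArithmeticFunction.vonMangoldt.residueClass (0 : ZMod 1) q =
      ArithmeticFunction.vonMangoldt q := by
    unfold ArithmeticFunction.vonMangoldt.residueClass
    rw [Set.indicator_of_mem]
    exact Subsingleton.elim _ _
  by_cases h : IsPrimePow q ∧ ¬ q.Prime
  · unfold np
    rw [if_pos h, if_neg h.2, hres]
    have hq : (0 : ℝ) < q := by
      have := h.1.two_le
      exact_mod_cast (by omega : 0 < q)
    have h2 : Real.log 2 ≤ ArithmeticFunction.vonMangoldt q := by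
      rw [ArithmeticFunction.vonMangoldt_apply, if_pos h.1]
      refine Real.log_le_log (by norm_num) ?_
      exact_mod_cast (Nat.minFac_prime h.1.one_lt.ne').two_le
    rw [inv_mul_eq_div, div_div, le_div_iff₀ (by positivity)]
    rw [mul_comm (q : ℝ), mul_comm, mul_assoc, mul_inv_cancel₀ hq.ne', mul_one]
    exact h2
  · unfold np
    rw [if_neg h]
    have : 0 ≤ (if q.Prime then 0 else
        ArithmeticFunction.vonMangoldt.residueClass (0 : ZMod 1) q) := by
      by_cases h' : q.Prime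
      · rw [if_pos h']
      · rw [if_neg h']
        exact ArithmeticFunction.vonMangoldt.residueClass_nonneg _ _
    positivity

/-- the sum of the reciprocals of the norms of primes -/
theorem sum_norm (S : Finset (HeightOneSpectrum (𝓞 K))) :
    ∑ v ∈ S, (nm v : ℝ)⁻¹ ≤ Module.finrank ℤ (𝓞 K) *
      (∑ q ∈ (S.image fun v => nm v).filter Nat.Prime, (q : ℝ)⁻¹ +
        ∑ q ∈ S.image fun v => nm v, np q) := by
  classical
  rw [← Finset.sum_fiberwise_of_maps_to (s := S) (t := S.image fun v => nm v) (g := fun v => nm v)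
    (fun v hv => Finset.mem_image_of_mem _ hv), Finset.sum_filter, ← Finset.sum_add_distrib,
    Finset.mul_sum]
  refine Finset.sum_le_sum fun q hq => ?_
  obtain ⟨v, hv, rfl⟩ := Finset.mem_image.1 hq
  have hpp := prime_pow v
  have e1 : ∑ w ∈ S.filter (fun w => nm w = nm v), (nm w : ℝ)⁻¹ =
      ((S.filter fun w => nm w = nm v).card : ℝ) * (nm v : ℝ)⁻¹ := by
    rw [Finset.sum_congr rfl (g := fun _ => (nm v : ℝ)⁻¹) fun w hw => by
      rw [(Finset.mem_filter.1 hw).2], Finset.sum_const, nsmul_eq_mul]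
  have e2 : ((if (nm v).Prime then ((nm v : ℕ) : ℝ)⁻¹ else 0) + np (nm v)) = (nm v : ℝ)⁻¹ := by
    unfold np
    by_cases h : (nm v).Prime
    · rw [if_pos h, if_neg fun h' => h'.2 h, add_zero]
    · rw [if_neg h, if_pos ⟨hpp, h⟩, zero_add]
  rw [e1, e2]
  refine mul_le_mul_of_nonneg_right ?_ (by positivity)
  exact_mod_cast card_norm _ (nm v) fun w hw => (Finset.mem_filter.1 hw).2

theorem countable_K : Countable (HeightOneSpectrum (𝓞 K)) := by
  rw [← Set.countable_univ_iff]
  have h1 : (Set.univ : Set (HeightOneSpectrum (𝓞 K))) =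
      ⋃ n : ℕ, {v : HeightOneSpectrum (𝓞 K) | (nm v : ℝ) ≤ n} := by
    ext v
    simp only [Set.mem_univ, Set.mem_iUnion, true_iff]
    exact ⟨nm v, show (nm v : ℝ) ≤ (nm v : ℝ) from le_rfl⟩
  rw [h1]
  exact Set.countable_iUnion fun n => (finite_le (K := K) n).countable

/-- the weights -/
noncomputable def wK (v : HeightOneSpectrum (𝓞 K)) : ℂ := (((nm v : ℝ)⁻¹ : ℝ) : ℂ)

/-- the exponents -/
noncomputable def tK (v : HeightOneSpectrum (𝓞 K)) : ℝ := Real.log (nm v)

theorem tK_le (v : HeightOneSpectrum (𝓞 K)) (t : ℝ) : tK v ≤ t ↔ v ∈ PX K (Real.exp t) := by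
  rw [mem_PX]
  exact Real.log_le_iff_le_exp (nm_pos v)

theorem PS_K (t : ℝ) : PS (wK (K := K)) tK t = (MX K (Real.exp t) : ℂ) := by
  classical
  unfold PS MX
  rw [tsum_eq_sum (s := PX K (Real.exp t)) (fun v hv => by
    rw [if_neg fun h => hv ((tK_le v t).1 h)])]
  push_cast
  refine Finset.sum_congr rfl fun v hv => ?_
  rw [if_pos ((tK_le v t).2 hv)]
  unfold wK
  push_cast
  rfl

theorem term_K (v : HeightOneSpectrum (𝓞 K)) (ε : ℝ) :
    (nm v : ℝ)⁻¹ * Real.exp (-(ε * tK v)) = (nm v : ℝ) ^ (-(1 + ε)) := by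
  unfold tK
  rw [neg_add, Real.rpow_add (nm_pos v), Real.rpow_neg_one, Real.rpow_def_of_pos (nm_pos v)]
  congr 2
  ring

theorem summ_K : ∀ ε : ℝ, 0 < ε →
    Summable fun v : HeightOneSpectrum (𝓞 K) => ‖wK v‖ * Real.exp (-(ε * tK v)) := by
  intro ε hε
  refine (nm_summable (K := K) (show 1 < 1 + ε by linarith)).congr fun v => ?_
  rw [← term_K]
  congr 1
  unfold wK
  rw [Complex.norm_real, Real.norm_eq_abs, abs_of_pos (inv_pos.2 (nm_pos v))]

theorem DS_K {ε : ℝ} (hε : 0 < ε) : DS (wK (K := K)) tK ε = ((PZ K ((1 + ε : ℝ) : ℂ)).re : ℂ) := by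
  unfold DS
  have h1 := pz_real (K := K) (show 1 < 1 + ε by linarith)
  rw [← h1.tsum_eq, Complex.ofReal_tsum]
  refine tsum_congr fun v => ?_
  rw [← term_K]
  unfold wK
  push_cast
  rfl

theorem slow_K : Slow (PS (wK (K := K)) tK) := by
  classical
  intro η hη
  obtain ⟨C, hC, hP⟩ := prime_sum'
  set d : ℝ := (Module.finrank ℤ (𝓞 K) : ℝ) with hd
  have hd0 : 0 ≤ d := Nat.cast_nonneg _
  obtain ⟨T₀, hT₀⟩ := (summable_iff_vanishing_norm.1 np_summable) (η / (3 * (d + 1))) (by positivity)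
  -- beyond the finite set
  obtain ⟨M, hM⟩ := T₀.exists_le
  refine ⟨Real.exp (η / (3 * (d + 1))), Real.one_lt_exp_iff.2 (by positivity),
    max (max 2 M) (3 * (d + 1) * C / η + 1), by positivity, fun t s ht hts hsl => ?_⟩
  have ht2 : 2 ≤ t := (le_max_left _ _).trans ((le_max_left _ _).trans ht)
  have htM : (M : ℝ) ≤ t := (le_max_right _ _).trans ((le_max_left _ _).trans ht)
  have htC : 3 * (d + 1) * C / η ≤ t := by
    have := (le_max_right _ _).trans ht
    linarith
  have ht0 : 0 < t := by linarith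
  rw [PS_K, PS_K, ← Complex.ofReal_sub, Complex.norm_real, Real.norm_eq_abs]
  have hsub : PX K (Real.exp t) ⊆ PX K (Real.exp s) := fun v hv => by
    rw [mem_PX] at hv ⊢
    exact hv.trans (Real.exp_le_exp.2 hts)
  set S := PX K (Real.exp s) \ PX K (Real.exp t) with hS
  have h1 : MX K (Real.exp s) - MX K (Real.exp t) = ∑ v ∈ S, (nm v : ℝ)⁻¹ := by
    unfold MX
    rw [hS, Finset.sum_sdiff_eq_sub hsub]
  have h0 : 0 ≤ ∑ v ∈ S, (nm v : ℝ)⁻¹ := Finset.sum_nonneg fun v _ => inv_nonneg.2 (nm_pos v).le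
  rw [h1, abs_of_nonneg h0]
  have hmem : ∀ q ∈ S.image (fun v => nm v), Real.exp t < q ∧ (q : ℝ) ≤ Real.exp s := by
    intro q hq
    obtain ⟨v, hv, rfl⟩ := Finset.mem_image.1 hq
    rw [hS, Finset.mem_sdiff, mem_PX, mem_PX, not_le] at hv
    exact ⟨hv.2, hv.1⟩
  have h2 : ∑ q ∈ (S.image fun v => nm v).filter Nat.Prime, (q : ℝ)⁻¹ ≤
      Real.log (s / t) + C / t := by
    have h3 := hP t s ht2 hts ((S.image fun v => nm v).filter Nat.Prime) (fun q hq => by
      rw [Finset.mem_filter] at hq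
      obtain ⟨h4, h5⟩ := hmem q hq.1
      have hq0 : (0 : ℝ) < q := by exact_mod_cast hq.2.pos
      exact ⟨hq.2, (Real.lt_log_iff_exp_lt hq0).2 h4, (Real.log_le_iff_le_exp hq0).2 h5⟩)
    simpa only [one_div] using h3
  have h3 : ∑ q ∈ S.image fun v => nm v, np q ≤ η / (3 * (d + 1)) := by
    have h4 := hT₀ (S.image fun v => nm v) (by
      rw [Finset.disjoint_left]
      intro q hq hq'
      have h5 := (hmem q hq).1
      have h6 : (q : ℝ) ≤ M := by exact_mod_cast hM q hq'
      have h7 := Real.add_one_le_exp t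
      linarith)
    exact (le_abs_self _).trans h4.le
  have h4 : Real.log (s / t) ≤ η / (3 * (d + 1)) := by
    have hs0 : 0 < s := by linarith
    rw [← Real.log_exp (η / (3 * (d + 1)))]
    refine Real.log_le_log (by positivity) ?_
    rw [div_le_iff₀ ht0]
    exact hsl
  have h5 : C / t ≤ η / (3 * (d + 1)) := by
    rw [div_le_div_iff₀ ht0 (by positivity)]
    rw [div_le_iff₀ hη] at htC
    linarith
  refine (sum_norm S).trans ?_
  have h6 : (∑ q ∈ (S.image fun v => nm v).filter Nat.Prime, (q : ℝ)⁻¹ +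
        ∑ q ∈ S.image fun v => nm v, np q) ≤ 3 * (η / (3 * (d + 1))) := by linarith
  refine (mul_le_mul_of_nonneg_left h6 hd0).trans ?_
  have h7 : d * (3 * (η / (3 * (d + 1)))) = η * (d / (d + 1)) := by
    field_simp
  rw [h7]
  refine mul_le_of_le_one_right hη.le ?_
  rw [div_le_one (by positivity)]
  linarith

theorem pz_lim (K : Type) [Field K] [NumberField K] : ∃ c : ℝ,
    Tendsto (fun t : ℝ => (PZ K ((1 + t⁻¹ : ℝ) : ℂ)).re - Real.log t) atTop (𝓝 c) := by
  obtain ⟨V, hV, hV0, hVe⟩ := exists_V K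
  have hopen : IsOpen {s : ℂ | (1 / 2 : ℝ) < s.re} := isOpen_lt continuous_const Complex.continuous_re
  have h1 : ContinuousAt V 1 := (hV.differentiableAt (hopen.mem_nhds (by norm_num))).continuousAt
  have h2 : Tendsto (fun t : ℝ => ((1 + t⁻¹ : ℝ) : ℂ)) atTop (𝓝 1) := by
    have h3 : Tendsto (fun t : ℝ => 1 + t⁻¹) atTop (𝓝 (1 + 0)) :=
      tendsto_const_nhds.add tendsto_inv_atTop_zero
    rw [add_zero] at h3
    exact (Complex.continuous_ofReal.tendsto 1).comp h3
  have h3 : Tendsto (fun t : ℝ => Real.log ‖V ((1 + t⁻¹ : ℝ) : ℂ)‖) atTop (𝓝 (Real.log ‖V 1‖)) := by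
    have h4 : ‖V 1‖ ≠ 0 := norm_ne_zero_iff.2 (hV0 1 (by simp))
    exact (((h1.tendsto.comp h2).norm).log h4)
  refine ⟨Real.log ‖V 1‖, h3.congr' ?_⟩
  filter_upwards [eventually_gt_atTop 0] with t ht
  have h4 : (1 : ℝ) < (((1 + t⁻¹ : ℝ) : ℂ)).re := by
    rw [Complex.ofReal_re]
    have : 0 < t⁻¹ := inv_pos.2 ht
    linarith
  have h5 := hVe _ h4
  have h6 : ((1 + t⁻¹ : ℝ) : ℂ) - 1 = ((t⁻¹ : ℝ) : ℂ) := by
    push_cast
    ring
  have h7 : V ((1 + t⁻¹ : ℝ) : ℂ) = Complex.exp (PZ K ((1 + t⁻¹ : ℝ) : ℂ)) * ((t⁻¹ : ℝ) : ℂ) := by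
    rw [h5, h6, div_mul_cancel₀]
    exact_mod_cast (inv_pos.2 ht).ne'
  rw [h7, norm_mul, Complex.norm_exp, Complex.norm_real, Real.norm_eq_abs,
    abs_of_pos (inv_pos.2 ht), Real.log_mul (Real.exp_pos _).ne' (inv_pos.2 ht).ne', Real.log_exp,
    Real.log_inv]
  ring

/-- **Mertens' theorem with the constant.** -/
theorem mertens_const (K : Type) [Field K] [NumberField K] : ∃ M : ℝ,
    Tendsto (fun X : ℝ => MX K X - Real.log (Real.log X)) atTop (𝓝 M) := by
  obtain ⟨c, hc⟩ := pz_lim K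
  have := countable_K (K := K)
  refine ⟨c + Real.eulerMascheroniConstant, ?_⟩
  have h1 := (core (summ_K (K := K)) (fun v => AO.log_nonneg v) slow_K 1
    ((c + Real.eulerMascheroniConstant : ℝ) : ℂ)).2 (by
      have h2 := (Complex.continuous_ofReal.tendsto c).comp hc
      refine (h2.congr' ?_).trans (le_of_eq ?_)
      · filter_upwards [eventually_gt_atTop 0] with t ht
        rw [DS_K (inv_pos.2 ht)]
        simp only [Function.comp_apply]
        push_cast
        ring
      · congr 1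
        push_cast
        ring)
  have h3 : Tendsto (fun t : ℝ => MX K (Real.exp t) - Real.log t) atTop
      (𝓝 (c + Real.eulerMascheroniConstant)) := by
    have h4 := (Complex.continuous_re.tendsto _).comp h1
    rw [Complex.ofReal_re] at h4
    refine h4.congr fun t => ?_
    simp only [Function.comp_apply]
    rw [PS_K, one_mul, ← Complex.ofReal_sub, Complex.ofReal_re]
  refine (h3.comp Real.tendsto_log_atTop).congr' ?_
  filter_upwards [eventually_gt_atTop 0] with X hX
  simp only [Function.comp_apply]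
  rw [Real.exp_log hX]

end Pool.Agent.W5h26.LD
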